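import Pool.Agent.KS6_3.B2.Torus

/-!
# Numbers of solutions of systems of binomial equations over finite fields: the count
-/

set_option autoImplicit false

namespace Pool.Agent.KS6_3.B2

open Finset

/-- Functions of the number `q` of the elements of a finite field whose values at `q = p ^ k` are
integral linear combinations of the `(p ^ D χ(p)) ^ k`. -/
def QC : Set (ℕ → ℂ) := {g | (fun (p : Nat.Primes) (k : ℕ) => g ((p : ℕ) ^ k)) ∈ Cyc}

lemma qc_zero : (fun _ => 0 : ℕ → ℂ) ∈ QC := Cyc.zero_mem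

lemma qc_sub {f g : ℕ → ℂ} (hf : f ∈ QC) (hg : g ∈ QC) : (fun q => f q - g q) ∈ QC :=
  Cyc.sub_mem hf hg

lemma qc_prod {ι : Type} (T : Finset ι) {f : ι → ℕ → ℂ} (h : ∀ t ∈ T, f t ∈ QC) :
    (fun q => ∏ t ∈ T, f t q) ∈ QC :=
  cyc_prod T h

lemma qc_sum {ι : Type} (T : Finset ι) {f : ι → ℕ → ℂ} (h : ∀ t ∈ T, f t ∈ QC) :
    (fun q => ∑ t ∈ T, f t q) ∈ QC :=
  cyc_sum T h

/-- The number of the solutions of `z ^ d = 1`. -/
lemma exists_roots (d : ℤ) : ∃ g ∈ QC, ∀ (κ : Type) [Field κ] [Finite κ],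
    (Nat.card {z : κˣ // z ^ d = 1} : ℂ) = g (Nat.card κ) := by
  by_cases hd : d = 0
  · subst hd
    refine ⟨fun q => (q : ℂ) - 1, ?_, fun κ _ _ => ?_⟩
    · have h := Cyc.sub_mem cyc_q cyc_one
      have h1 : (fun (p : Nat.Primes) (k : ℕ) => (((p : ℕ) ^ k : ℕ) : ℂ) - 1) ∈ Cyc := by
        convert h using 1
        funext p k
        simp
      exact h1
    · classical
      have : Fintype κ := Fintype.ofFinite κ
      have e : {z : κˣ // z ^ (0 : ℤ) = 1} ≃ κˣ := Equiv.subtypeUnivEquiv fun z => zpow_zero z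
      rw [Nat.card_congr e, Nat.card_eq_fintype_card, Fintype.card_units, Nat.card_eq_fintype_card,
        Nat.cast_sub Fintype.card_pos, Nat.cast_one]
  · refine ⟨fun q => ∑ e ∈ d.natAbs.divisors, if ((q : ℕ) : ZMod e) = 1 then (e.totient : ℂ) else 0,
      qc_sum _ fun e he => ?_, fun κ _ _ => card_roots d hd⟩
    exact cyc_congr e (Nat.pos_of_mem_divisors he).ne'

/-- The number of the homomorphisms to `κˣ` that are trivial on a subgroup `R` of `ℤ ^ U`. -/
lemma exists_torus {U : Type} [Fintype U] (R : Submodule ℤ (U → ℤ)) :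
    ∃ g ∈ QC, ∀ (κ : Type) [Field κ] [Finite κ],
      (Nat.card {x : U → κˣ // ∀ v ∈ R, ∏ u, x u ^ v u = 1} : ℂ) = g (Nat.card κ) := by
  classical
  obtain ⟨n, snf⟩ := Submodule.smithNormalForm (Pi.basisFun ℤ U) R
  let d : U → ℤ := fun u => if h : ∃ i, snf.f i = u then snf.a h.choose else 0
  have hd : ∀ i, d (snf.f i) = snf.a i := by
    intro i
    have h : ∃ i', snf.f i' = snf.f i := ⟨i, rfl⟩
    simp only [d, dif_pos h]
    rw [snf.f.injective h.choose_spec]
  have hd0 : ∀ u, (¬ ∃ i, snf.f i = u) → d u = 0 := fun u h => dif_neg h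
  choose g hg hcard using fun u => exists_roots (d u)
  refine ⟨fun q => ∏ u, g u q, qc_prod _ fun u _ => hg u, fun κ _ _ => ?_⟩
  -- the homomorphism of `x`
  let e1 : (U → Additive κˣ) ≃ ((U → ℤ) →ₗ[ℤ] Additive κˣ) :=
    ((Pi.basisFun ℤ U).constr ℤ).toEquiv
  let e2 : (U → Additive κˣ) ≃ ((U → ℤ) →ₗ[ℤ] Additive κˣ) := (snf.bM.constr ℤ).toEquiv
  have he1 : ∀ (x : U → Additive κˣ) (v : U → ℤ), e1 x v = ∑ u, v u • x u := by
    intro x v
    simp [e1, Module.Basis.constr_apply_fintype]
  have hx : ∀ x : U → Additive κˣ, (∀ v ∈ R, ∏ u, (x u).toMul ^ v u = 1) ↔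
      ∀ u, ((e2.symm (e1 x)) u).toMul ^ d u = 1 := by
    intro x
    have h1 : (∀ v ∈ R, ∏ u, (x u).toMul ^ v u = 1) ↔ ∀ v ∈ R, e1 x v = 0 := by
      apply forall₂_congr
      intro v _
      rw [he1]
      rfl
    have h2 : (∀ v ∈ R, e1 x v = 0) ↔ ∀ i, e1 x (snf.bN i : U → ℤ) = 0 := by
      constructor
      · intro h i
        exact h _ (snf.bN i).2
      · intro h v hv
        have h3 : (e1 x).comp R.subtype = 0 := by
          apply snf.bN.ext
          intro i
          exact h i
        exact LinearMap.congr_fun h3 ⟨v, hv⟩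
    have h4 : ∀ u, e2.symm (e1 x) u = e1 x (snf.bM u) := fun u => rfl
    rw [h1, h2]
    constructor
    · intro h u
      by_cases hu : ∃ i, snf.f i = u
      · obtain ⟨i, rfl⟩ := hu
        have h5 := h i
        rw [snf.snf, map_smul] at h5
        rw [hd, h4]
        exact h5
      · rw [hd0 u hu, zpow_zero]
    · intro h i
      have h5 := h (snf.f i)
      rw [hd, h4] at h5
      rw [snf.snf, map_smul]
      exact h5
  have e : {x : U → κˣ // ∀ v ∈ R, ∏ u, x u ^ v u = 1} ≃ ∀ u, {z : κˣ // z ^ d u = 1} :=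
    (Equiv.subtypeEquiv (e1.trans e2.symm) (p := fun x : U → Additive κˣ =>
      ∀ v ∈ R, ∏ u, (x u).toMul ^ v u = 1) (q := fun y : U → Additive κˣ =>
      ∀ u, (y u).toMul ^ d u = 1) hx).trans
      { toFun := fun y u => ⟨(y.1 u).toMul, y.2 u⟩
        invFun := fun y => ⟨fun u => Additive.ofMul (y u).1, fun u => (y u).2⟩
        left_inv := fun _ => rfl
        right_inv := fun _ => rfl }
  rw [Nat.card_congr e, Nat.card_pi]
  push_cast
  exact prod_congr rfl fun u _ => hcard u κ

lemma neg_one_of_sq {κ : Type} [Field κ] {w : κˣ} (h : w ^ (2 : ℤ) = 1) (h1 : w ≠ 1) : w = -1 := by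
  have h2 : (w : κ) ^ 2 = 1 := by
    have h3 := congrArg (fun u : κˣ => (u : κ)) h
    simpa using h3
  rcases sq_eq_one_iff.mp h2 with h3 | h3
  · exact absurd (Units.ext h3) h1
  · exact Units.ext h3

/-- The number of the elements of `Φ κ` is a function in `QC` of the number of the elements of the
finite field `κ`, one for odd characteristic and another one for characteristic two. -/
def QCount (Φ : ∀ (κ : Type) [Field κ], Type) : Prop :=
  ∃ g ∈ QC, ∃ g₂ ∈ QC, ∀ (κ : Type) [Field κ] [Finite κ],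
    ((2 : κ) ≠ 0 → (Nat.card (Φ κ) : ℂ) = g (Nat.card κ)) ∧
      ((2 : κ) = 0 → (Nat.card (Φ κ) : ℂ) = g₂ (Nat.card κ))

/-- The number of the solutions of a system of equations `∏ x_u ^ v_u = -1`. -/
lemma exists_neg {U J : Type} [Fintype U] (P : J → U → ℤ) :
    QCount fun κ _ => {x : U → κˣ // ∀ j, ∏ u, x u ^ P j u = -1} := by
  classical
  -- relations for `(ε, x)`
  let rel : J → Option U → ℤ := fun j o => o.elim 1 (P j)
  let sq : ℤ → Option U → ℤ := fun t o => o.elim t fun _ => 0
  let R : ℤ → Submodule ℤ (Option U → ℤ) := fun t => Submodule.span ℤ (Set.range rel ∪ {sq t})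
  have hR : ∀ (t : ℤ) (κ : Type) [Field κ] (y : Option U → κˣ),
      (∀ v ∈ R t, ∏ o, y o ^ v o = 1) ↔ (y none ^ t = 1 ∧
        ∀ j, y none * ∏ u, y (some u) ^ P j u = 1) := by
    intro t κ _ y
    have h1 : ∀ j, ∏ o, y o ^ rel j o = y none * ∏ u, y (some u) ^ P j u := by
      intro j
      rw [Fintype.prod_option]
      simp [rel]
    have h2 : ∏ o, y o ^ sq t o = y none ^ t := by
      rw [Fintype.prod_option]
      simp [sq]
    constructor
    · intro h
      refine ⟨?_, fun j => ?_⟩
      · rw [← h2]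
        exact h _ (Submodule.subset_span (Or.inr rfl))
      · rw [← h1]
        exact h _ (Submodule.subset_span (Or.inl ⟨j, rfl⟩))
    · rintro ⟨h3, h4⟩ v hv
      refine Submodule.span_induction (p := fun v _ => ∏ o, y o ^ v o = 1) ?_ ?_ ?_ ?_ hv
      · rintro w (⟨j, rfl⟩ | hw)
        · rw [h1]
          exact h4 j
        · rw [Set.mem_singleton_iff.mp hw, h2]
          exact h3
      · simp
      · intro a b _ _ ha hb
        simp only [Pi.add_apply, zpow_add, prod_mul_distrib]
        rw [ha, hb, one_mul]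
      · intro c a _ ha
        simp only [Pi.smul_apply, smul_eq_mul, mul_comm c, zpow_mul, prod_zpow]
        rw [ha, one_zpow]
  obtain ⟨g1, hg1, hc1⟩ := exists_torus (R 2)
  obtain ⟨g2, hg2, hc2⟩ := exists_torus (R 1)
  refine ⟨fun q => g1 q - g2 q, qc_sub hg1 hg2, g2, hg2, fun κ _ _ => ?_⟩
  simp only
  have e2 : {y : Option U → κˣ // ∀ v ∈ R 1, ∏ o, y o ^ v o = 1} ≃
      {x : U → κˣ // ∀ j, ∏ u, x u ^ P j u = 1} :=
    { toFun := fun y => ⟨fun u => y.1 (some u), fun j => by
        have h := (hR 1 κ y.1).mp y.2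
        have h1 := h.2 j
        rwa [show y.1 none = 1 from (zpow_one _).symm.trans h.1, one_mul] at h1⟩
      invFun := fun x => ⟨fun o => o.elim 1 x.1, (hR 1 κ _).mpr ⟨by simp, fun j => by
        simpa using x.2 j⟩⟩
      left_inv := by
        intro y
        apply Subtype.ext
        funext o
        cases o with
        | none => exact ((zpow_one _).symm.trans ((hR 1 κ y.1).mp y.2).1).symm
        | some u => rfl
      right_inv := fun x => rfl }
  constructor
  · intro hp
    rw [← hc1 κ, ← hc2 κ, Nat.card_congr e2]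
    have hne : (1 : κˣ) ≠ -1 := by
      intro h
      have h1 := congrArg (fun u : κˣ => (u : κ)) h
      simp only [Units.val_neg, Units.val_one] at h1
      rw [eq_neg_iff_add_eq_zero, one_add_one_eq_two] at h1
      exact hp h1
    have e1 : {y : Option U → κˣ // ∀ v ∈ R 2, ∏ o, y o ^ v o = 1} ≃
        {x : U → κˣ // ∀ j, ∏ u, x u ^ P j u = 1} ⊕ {x : U → κˣ // ∀ j, ∏ u, x u ^ P j u = -1} :=
      { toFun := fun y => if h : y.1 none = 1 then Sum.inl ⟨fun u => y.1 (some u), fun j => by
            have h1 := ((hR 2 κ y.1).mp y.2).2 j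
            rwa [h, one_mul] at h1⟩ else Sum.inr ⟨fun u => y.1 (some u), fun j => by
            have h0 := ((hR 2 κ y.1).mp y.2)
            have h1 := h0.2 j
            have h2 : y.1 none = -1 := neg_one_of_sq h0.1 h
            rw [h2, neg_mul, one_mul] at h1
            exact neg_eq_iff_eq_neg.mp h1⟩
        invFun := Sum.elim (fun x => ⟨fun o => o.elim 1 x.1, (hR 2 κ _).mpr ⟨by simp, fun j => by
            simpa using x.2 j⟩⟩) fun x => ⟨fun o => o.elim (-1) x.1, (hR 2 κ _).mpr ⟨by
            change (-1 : κˣ) ^ ((2 : ℕ) : ℤ) = 1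
            rw [zpow_natCast, neg_one_sq], fun j => by
            change (-1 : κˣ) * ∏ u, x.1 u ^ P j u = 1
            rw [x.2 j, neg_mul_neg, one_mul]⟩⟩
        left_inv := by
          intro y
          apply Subtype.ext
          funext o
          by_cases h : y.1 none = 1
          · simp only [dif_pos h, Sum.elim_inl]
            cases o with
            | none => exact h.symm
            | some u => rfl
          · simp only [dif_neg h, Sum.elim_inr]
            cases o with
            | none => exact (neg_one_of_sq ((hR 2 κ y.1).mp y.2).1 h).symm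
            | some u => rfl
        right_inv := by
          rintro (x | x)
          · simp
          · exact dif_neg hne.symm }
    rw [Nat.card_congr e1, Nat.card_sum]
    push_cast
    ring
  · intro hp
    rw [← hc2 κ, Nat.card_congr e2]
    have h1 : (-1 : κˣ) = 1 := by
      apply Units.ext
      rw [Units.val_neg, Units.val_one, neg_eq_iff_add_eq_zero, one_add_one_eq_two]
      exact hp
    rw [h1]

end Pool.Agent.KS6_3.B2
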