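import Mathlib

/-!
# Counting the solutions of `∑ z_j v_j = 1`
-/

set_option autoImplicit false

namespace Pool.Agent.KS6_3.B2

open Finset

section Fibre

variable {κ : Type} [Field κ] [Finite κ] {J : Type} [Fintype J]

/-- The number of the solutions `z` of `∑ z_j v_j = 1` for a vector `v ≠ 0`. -/
theorem card_fibre (v : J → κ) (hv : v ≠ 0) :
    Nat.card κ * Nat.card {z : J → κ // ∑ j, z j * v j = 1} = Nat.card κ ^ Fintype.card J := by
  classical
  let φ : (J → κ) →+ κ :=
    { toFun := fun z => ∑ j, z j * v j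
      map_zero' := by simp
      map_add' := by
        intro z w
        rw [← Finset.sum_add_distrib]
        exact Finset.sum_congr rfl fun j _ => by rw [Pi.add_apply, add_mul] }
  obtain ⟨j₀, hj⟩ : ∃ j, v j ≠ 0 := by
    by_contra h
    push Not at h
    exact hv (funext h)
  have hval : ∀ t : κ, φ (Pi.single j₀ (t * (v j₀)⁻¹)) = t := by
    intro t
    change ∑ j, (Pi.single j₀ (t * (v j₀)⁻¹) : J → κ) j * v j = t
    rw [Finset.sum_eq_single j₀]
    · rw [Pi.single_eq_same, mul_assoc, inv_mul_cancel₀ hj, mul_one]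
    · intro j _ hne
      rw [Pi.single_eq_of_ne hne, zero_mul]
    · intro h
      exact absurd (Finset.mem_univ _) h
  have hsur : Function.Surjective φ := fun t => ⟨_, hval t⟩
  have e1 : {z : J → κ // ∑ j, z j * v j = 1} ≃ φ.ker :=
    { toFun := fun z => ⟨z.1 - Pi.single j₀ (1 * (v j₀)⁻¹), by
        rw [AddMonoidHom.mem_ker, map_sub, hval 1, sub_eq_zero]
        exact z.2⟩
      invFun := fun z => ⟨z.1 + Pi.single j₀ (1 * (v j₀)⁻¹), by
        have h := z.2
        rw [AddMonoidHom.mem_ker] at h
        change φ (z.1 + Pi.single j₀ (1 * (v j₀)⁻¹)) = 1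
        rw [map_add, h, hval 1, zero_add]⟩
      left_inv := fun z => Subtype.ext (sub_add_cancel _ _)
      right_inv := fun z => Subtype.ext (add_sub_cancel_right _ _) }
  have h1 : Nat.card (J → κ) = Nat.card ((J → κ) ⧸ φ.ker) * Nat.card φ.ker :=
    AddSubgroup.card_eq_card_quotient_mul_card_addSubgroup _
  have h2 : Nat.card ((J → κ) ⧸ φ.ker) = Nat.card κ :=
    Nat.card_congr (QuotientAddGroup.quotientKerEquivOfSurjective φ hsur).toEquiv
  rw [h2, Nat.card_fun, Nat.card_eq_fintype_card (α := J)] at h1
  rw [Nat.card_congr e1, ← h1]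

/-- The number of the pairs `(t, z)` with `∑ z_j v_j(t) = 1`. -/
theorem card_family {P : Type} [Finite P] (v : P → J → κ) :
    Nat.card κ * Nat.card {w : P × (J → κ) // ∑ j, w.2 j * v w.1 j = 1} +
      Nat.card κ ^ Fintype.card J * Nat.card {t : P // v t = 0} =
      Nat.card κ ^ Fintype.card J * Nat.card P := by
  classical
  have : Fintype P := Fintype.ofFinite P
  have e : {w : P × (J → κ) // ∑ j, w.2 j * v w.1 j = 1} ≃
      Σ t : P, {z : J → κ // ∑ j, z j * v t j = 1} :=
    { toFun := fun w => ⟨w.1.1, w.1.2, w.2⟩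
      invFun := fun w => ⟨(w.1, w.2.1), w.2.2⟩
      left_inv := fun _ => rfl
      right_inv := fun _ => rfl }
  have h0 : ∀ t : P, Nat.card κ * Nat.card {z : J → κ // ∑ j, z j * v t j = 1} =
      if v t = 0 then 0 else Nat.card κ ^ Fintype.card J := by
    intro t
    split_ifs with h
    · have : IsEmpty {z : J → κ // ∑ j, z j * v t j = 1} := by
        constructor
        rintro ⟨z, hz⟩
        rw [h] at hz
        simp at hz
      rw [Nat.card_of_isEmpty (α := {z : J → κ // ∑ j, z j * v t j = 1}), mul_zero]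
    · exact card_fibre _ h
  rw [Nat.card_congr e, Nat.card_sigma, Finset.mul_sum, Finset.sum_congr rfl fun t _ => h0 t,
    Finset.sum_ite, Finset.sum_const_zero, zero_add, Finset.sum_const, smul_eq_mul,
    Nat.card_eq_fintype_card (α := {t : P // v t = 0}), Fintype.card_subtype, mul_comm (#_),
    ← mul_add, add_comm (#_), Nat.card_eq_fintype_card (α := P),
    Finset.card_filter_add_card_filter_not, Finset.card_univ (α := P)]

end Fibre

end Pool.Agent.KS6_3.B2
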