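import Pool.Agent.KS6_3.B2.Count

/-!
# The affine bundle of Jouanolou over a projective scheme: numbers of points
-/

set_option autoImplicit false

namespace Pool.Agent.KS6_3.B2

open Finset MvPolynomial LinearAlgebra

/-- The points over `κ` of the closed subscheme `G = 0` of the projective space of dimension
`n - 1` (the elements of `G` are homogeneous polynomials). -/
def projPoints {n : ℕ} (G : Finset (MvPolynomial (Fin n) ℤ)) (κ : Type) [Field κ] :
    Set (Projectivization κ (Fin n → κ)) := {P | ∀ F ∈ G, aeval P.rep F = 0}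

/-- The equations of the matrices of rank one and trace one with columns in the cone `G = 0`. -/
noncomputable def jouSet {n : ℕ} (G : Finset (MvPolynomial (Fin n) ℤ)) :
    Finset (MvPolynomial (Fin n × Fin n) ℤ) := by
  classical
  exact insert (∑ i, X (i, i) - 1)
    ((univ.image fun q : (Fin n × Fin n) × (Fin n × Fin n) =>
      X (q.1.1, q.1.2) * X (q.2.1, q.2.2) - X (q.1.1, q.2.2) * X (q.2.1, q.1.2)) ∪
      (G ×ˢ (univ : Finset (Fin n))).image fun q =>
        (aeval fun i => (X (i, q.2) : MvPolynomial (Fin n × Fin n) ℤ)) q.1)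

section

variable {n : ℕ} (G : Finset (MvPolynomial (Fin n) ℤ)) {κ : Type} [Field κ]

lemma jouSet_iff (A : Fin n × Fin n → κ) :
    (∀ F ∈ jouSet G, aeval A F = 0) ↔
      (∑ i, A (i, i) = 1) ∧ (∀ i j k l, A (i, j) * A (k, l) = A (i, l) * A (k, j)) ∧
        ∀ F ∈ G, ∀ j, aeval (fun i => A (i, j)) F = 0 := by
  classical
  have hcol : ∀ (F : MvPolynomial (Fin n) ℤ) (j : Fin n),
      aeval A ((aeval fun i => (X (i, j) : MvPolynomial (Fin n × Fin n) ℤ)) F) =
        aeval (fun i => A (i, j)) F := by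
    intro F j
    have h : (aeval A).comp (aeval fun i => (X (i, j) : MvPolynomial (Fin n × Fin n) ℤ)) =
        aeval (fun i => A (i, j)) := by
      apply MvPolynomial.algHom_ext
      intro i
      simp
    exact DFunLike.congr_fun h F
  constructor
  · intro h
    refine ⟨?_, ?_, ?_⟩
    · have h1 := h (∑ i, X (i, i) - 1) (by simp [jouSet])
      simpa [sub_eq_zero] using h1
    · intro i j k l
      have h1 := h (X (i, j) * X (k, l) - X (i, l) * X (k, j)) (by
        simp only [jouSet, mem_insert, mem_union, mem_image, mem_univ, true_and]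
        exact Or.inr (Or.inl ⟨((i, j), (k, l)), rfl⟩))
      simpa [sub_eq_zero] using h1
    · intro F hF j
      rw [← hcol]
      apply h
      simp only [jouSet, mem_insert, mem_union, mem_image, mem_product, mem_univ]
      exact Or.inr (Or.inr ⟨(F, j), ⟨hF, trivial⟩, rfl⟩)
  · rintro ⟨h1, h2, h3⟩ F hF
    simp only [jouSet, mem_insert, mem_union, mem_image, mem_product, mem_univ, true_and,
      and_true] at hF
    rcases hF with rfl | ⟨q, rfl⟩ | ⟨q, hq, rfl⟩
    · simp [h1]
    · simp [h2 q.1.1 q.1.2 q.2.1 q.2.2]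
    · rw [hcol]
      exact h3 _ hq _

variable {G}

lemma aeval_smul_hom {F : MvPolynomial (Fin n) ℤ} {d : ℕ} (hF : F.IsHomogeneous d) (c : κ)
    (u : Fin n → κ) : aeval (fun i => c * u i) F = c ^ d * aeval u F := by
  rw [aeval_def, eval₂_eq', aeval_def, eval₂_eq', mul_sum]
  apply sum_congr rfl
  intro e he
  have hd : ∑ i, e i = d := by
    have := hF (mem_support_iff.mp he)
    rw [← this, Finsupp.weight_apply, Finsupp.sum_fintype _ _ (by simp)]
    simp
  simp_rw [mul_pow]
  rw [prod_mul_distrib, prod_pow_eq_pow_sum, hd]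
  ring

/-- The map `(P, v) ↦ u vᵗ`. -/
noncomputable def jouMap (hG : ∀ F ∈ G, ∃ d, F.IsHomogeneous d)
    (q : Σ P : projPoints G κ, {v : Fin n → κ // ∑ j, v j * P.1.rep j = 1}) :
    {A : Fin n × Fin n → κ // ∀ F ∈ jouSet G, aeval A F = 0} :=
  ⟨fun s => q.1.1.rep s.1 * q.2.1 s.2, by
    rw [jouSet_iff]
    refine ⟨?_, ?_, ?_⟩
    · refine Eq.trans ?_ q.2.2
      exact sum_congr rfl fun i _ => mul_comm _ _
    · intro i j k l
      ring
    · intro F hF j
      obtain ⟨d, hd⟩ := hG F hF
      have h1 : (fun i => q.1.1.rep (i, j).1 * q.2.1 (i, j).2) =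
          fun i => q.2.1 j * q.1.1.rep i := by
        funext i
        exact mul_comm _ _
      rw [h1, aeval_smul_hom hd, q.1.2 F hF, mul_zero]⟩

lemma jouMap_injective (hG : ∀ F ∈ G, ∃ d, F.IsHomogeneous d) :
    Function.Injective (jouMap (κ := κ) hG) := by
  rintro ⟨⟨P, hP⟩, ⟨v, hv⟩⟩ ⟨⟨P', hP'⟩, ⟨v', hv'⟩⟩ h
  have h0 : ∀ i j, P.rep i * v j = P'.rep i * v' j := fun i j =>
    congrFun (congrArg Subtype.val h) (i, j)
  obtain ⟨j, hj⟩ : ∃ j, v j ≠ 0 := by
    by_contra hne
    push Not at hne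
    simp only [hne, zero_mul, sum_const_zero] at hv
    exact zero_ne_one hv
  have hPP : P = P' := by
    rw [← P.mk_rep, ← P'.mk_rep]
    rw [Projectivization.mk_eq_mk_iff']
    refine ⟨v' j / v j, ?_⟩
    funext i
    rw [Pi.smul_apply, smul_eq_mul, div_mul_eq_mul_div, div_eq_iff hj, h0 i j, mul_comm]
  subst hPP
  have hvv : v = v' := by
    obtain ⟨i, hi⟩ : ∃ i, P.rep i ≠ 0 := by
      by_contra hne
      push Not at hne
      exact P.rep_nonzero (funext hne)
    funext k
    exact mul_left_cancel₀ hi (h0 i k)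
  subst hvv
  rfl

lemma jouMap_surjective (hG : ∀ F ∈ G, ∃ d, F.IsHomogeneous d) :
    Function.Surjective (jouMap (κ := κ) hG) := by
  rintro ⟨A, hA⟩
  obtain ⟨htr, hrk, hcol⟩ := (jouSet_iff G A).mp hA
  obtain ⟨k, hk⟩ : ∃ k, A (k, k) ≠ 0 := by
    by_contra hne
    push Not at hne
    simp only [hne, sum_const_zero] at htr
    exact zero_ne_one htr
  let u : Fin n → κ := fun i => A (i, k)
  have hu : u ≠ 0 := fun h => hk (congrFun h k)
  let P : Projectivization κ (Fin n → κ) := Projectivization.mk κ u hu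
  obtain ⟨c, hc⟩ := (Projectivization.mk_eq_mk_iff' κ u P.rep hu P.rep_nonzero).mp
    (P.mk_rep.symm ▸ rfl : Projectivization.mk κ u hu = Projectivization.mk κ P.rep P.rep_nonzero)
  -- `c • P.rep = u`
  have hc0 : c ≠ 0 := by
    rintro rfl
    rw [zero_smul] at hc
    exact hu hc.symm
  have hrep : P.rep = fun i => c⁻¹ * u i := by
    funext i
    rw [← hc, Pi.smul_apply, smul_eq_mul, inv_mul_cancel_left₀ hc0]
  have hmem : P ∈ projPoints G κ := by
    intro F hF
    obtain ⟨d, hd⟩ := hG F hF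
    rw [hrep, aeval_smul_hom hd, hcol F hF k, mul_zero]
  let v : Fin n → κ := fun j => c * (A (k, j) / A (k, k))
  have hvj : ∀ i j, P.rep i * v j = A (i, j) := by
    intro i j
    have h1 := hrk i k k j
    rw [hrep]
    change c⁻¹ * A (i, k) * (c * (A (k, j) / A (k, k))) = A (i, j)
    field_simp
    rw [mul_comm, mul_comm (A (i, j))] at *
    linear_combination h1
  have hv : ∑ j, v j * P.rep j = 1 := by
    rw [← htr]
    exact sum_congr rfl fun j _ => by rw [mul_comm, hvj]
  refine ⟨⟨⟨P, hmem⟩, ⟨v, hv⟩⟩, ?_⟩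
  apply Subtype.ext
  funext s
  exact hvj s.1 s.2

/-- The number of points of the affine bundle of Jouanolou over a projective scheme. -/
theorem card_jou [Finite κ] (hG : ∀ F ∈ G, ∃ d, F.IsHomogeneous d) :
    Nat.card κ * Nat.card {A : Fin n × Fin n → κ // ∀ F ∈ jouSet G, aeval A F = 0} =
      Nat.card κ ^ n * Nat.card (projPoints G κ) := by
  classical
  have : Finite (Projectivization κ (Fin n → κ)) := inferInstance
  have : Fintype (projPoints G κ) := Fintype.ofFinite _
  rw [← Nat.card_congr (Equiv.ofBijective _ ⟨jouMap_injective (κ := κ) hG, jouMap_surjective hG⟩),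
    Nat.card_sigma, mul_sum]
  have h : ∀ P : projPoints G κ, Nat.card κ * Nat.card {v : Fin n → κ // ∑ j, v j * P.1.rep j = 1} =
      Nat.card κ ^ n := by
    intro P
    rw [card_fibre _ P.1.rep_nonzero, Fintype.card_fin]
  rw [sum_congr rfl fun P _ => h P, sum_const, smul_eq_mul, mul_comm, Nat.card_eq_fintype_card
    (α := projPoints G κ), card_univ]

end

end Pool.Agent.KS6_3.B2
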