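import Pool.Agent.KS6_3.B2.Encode
import Pool.Agent.KS6_3.B2.Jou

/-!
# The affine cubic hypersurfaces `∑_{(i, k, j) ∈ H} x̂_i ŷ_k z_j = 1`
-/

set_option autoImplicit false

namespace Pool.Agent.KS6_3.B2

open Finset MvPolynomial

variable {a b m : ℕ}

/-- The polynomial `∑_{(i, k, j) ∈ H} x̂_i ŷ_k z_j` in the variables `x`, `y`, `z`, where `x̂` and
`ŷ` are the tuples `x` and `y` extended by `1` (at `none`). -/
noncomputable def cubicPoly (H : Finset (Option (Fin a) × Option (Fin b) × Fin m)) :
    MvPolynomial (Fin a ⊕ (Fin b ⊕ Fin m)) ℤ :=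
  ∑ h ∈ H, hat (fun i => X (Sum.inl i)) h.1 * hat (fun k => X (Sum.inr (Sum.inl k))) h.2.1 *
    X (Sum.inr (Sum.inr h.2.2))

/-- The points over `κ` of the cubic hypersurface. -/
def cubicPoints (H : Finset (Option (Fin a) × Option (Fin b) × Fin m)) (κ : Type) [Field κ] :
    Set (Fin a ⊕ (Fin b ⊕ Fin m) → κ) := {v | aeval v (cubicPoly H) = 1}

/-- The coordinate ring of the cubic hypersurface. -/
abbrev CubicRing (H : Finset (Option (Fin a) × Option (Fin b) × Fin m)) : Type :=
  MvPolynomial (Fin a ⊕ (Fin b ⊕ Fin m)) ℤ ⧸ Ideal.span {cubicPoly H - 1}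

variable (H : Finset (Option (Fin a) × Option (Fin b) × Fin m))

lemma aeval_cubicPoly {B : Type} [CommRing B] [Algebra ℤ B] (v : Fin a ⊕ (Fin b ⊕ Fin m) → B) :
    aeval v (cubicPoly H) = ∑ h ∈ H, hat (fun i => v (Sum.inl i)) h.1 *
      hat (fun k => v (Sum.inr (Sum.inl k))) h.2.1 * v (Sum.inr (Sum.inr h.2.2)) := by
  have h1 : ∀ o : Option (Fin a), aeval v (hat (fun i => X (Sum.inl i)) o :
      MvPolynomial (Fin a ⊕ (Fin b ⊕ Fin m)) ℤ) = hat (fun i => v (Sum.inl i)) o := by
    intro o
    cases o with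
    | none => exact map_one _
    | some i => exact aeval_X _ _
  have h2 : ∀ o : Option (Fin b), aeval v (hat (fun i => X (Sum.inr (Sum.inl i))) o :
      MvPolynomial (Fin a ⊕ (Fin b ⊕ Fin m)) ℤ) = hat (fun i => v (Sum.inr (Sum.inl i))) o := by
    intro o
    cases o with
    | none => exact map_one _
    | some i => exact aeval_X _ _
  simp only [cubicPoly, map_sum, map_mul, aeval_X, h1, h2]

/-- The cubic hypersurface is smooth over `ℤ`. -/
theorem cubic_smooth : Algebra.Smooth ℤ (CubicRing H) where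
  formallySmooth := by
    apply Algebra.FormallySmooth.of_comp_surjective
    intro B _ _ I hI g
    have hsur : Function.Surjective (Ideal.Quotient.mkₐ ℤ I) := Ideal.Quotient.mkₐ_surjective ℤ I
    choose v hv using fun s => hsur (g (Ideal.Quotient.mk _ (X s)))
    have h1 : (Ideal.Quotient.mkₐ ℤ I).comp (aeval v) =
        g.comp (Ideal.Quotient.mkₐ ℤ (Ideal.span {cubicPoly H - 1})) := by
      apply MvPolynomial.algHom_ext
      intro s
      change Ideal.Quotient.mkₐ ℤ I (aeval v (X s)) = _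
      rw [aeval_X]
      exact hv s
    have h2 : Ideal.Quotient.mkₐ ℤ I (aeval v (cubicPoly H) - 1) = 0 := by
      have h3 := congrArg (fun f : MvPolynomial (Fin a ⊕ (Fin b ⊕ Fin m)) ℤ →ₐ[ℤ] B ⧸ I =>
        f (cubicPoly H - 1)) h1
      change Ideal.Quotient.mkₐ ℤ I (aeval v (cubicPoly H - 1)) =
        g (Ideal.Quotient.mk _ (cubicPoly H - 1)) at h3
      rw [Ideal.Quotient.eq_zero_iff_mem.mpr (Ideal.mem_span_singleton_self _), map_zero, map_sub,
        map_one] at h3
      exact h3
    have h4 : aeval v (cubicPoly H) - 1 ∈ I := Ideal.Quotient.eq_zero_iff_mem.mp h2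
    let d : B := aeval v (cubicPoly H) - 1
    have h5 : d * d = 0 := by
      have : d * d ∈ I ^ 2 := by
        rw [pow_two]
        exact Ideal.mul_mem_mul h4 h4
      rw [hI] at this
      exact this
    let w : Fin a ⊕ (Fin b ⊕ Fin m) → B := Sum.elim (fun i => v (Sum.inl i))
      (Sum.elim (fun k => v (Sum.inr (Sum.inl k))) fun j => (1 - d) * v (Sum.inr (Sum.inr j)))
    have h6 : aeval w (cubicPoly H) = 1 := by
      have h7 : aeval w (cubicPoly H) = (1 - d) * aeval v (cubicPoly H) := by
        rw [aeval_cubicPoly, aeval_cubicPoly, Finset.mul_sum]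
        apply Finset.sum_congr rfl
        intro h _
        change hat (fun i => v (Sum.inl i)) h.1 * hat (fun k => v (Sum.inr (Sum.inl k))) h.2.1 *
          ((1 - d) * v (Sum.inr (Sum.inr h.2.2))) = _
        ring
      have h8 : aeval v (cubicPoly H) = 1 + d := by
        change _ = 1 + (aeval v (cubicPoly H) - 1)
        ring
      rw [h7, h8]
      linear_combination -h5
    refine ⟨Ideal.Quotient.liftₐ _ (aeval w) ?_, ?_⟩
    · intro p hp
      have h9 : Ideal.span {cubicPoly H - 1} ≤
          RingHom.ker (aeval w : MvPolynomial (Fin a ⊕ (Fin b ⊕ Fin m)) ℤ →ₐ[ℤ] B) := by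
        rw [Ideal.span_le, Set.singleton_subset_iff]
        change aeval w (cubicPoly H - 1) = 0
        rw [map_sub, h6, map_one, sub_self]
      exact h9 hp
    · have hd : Ideal.Quotient.mkₐ ℤ I d = 0 := h2
      apply Ideal.Quotient.algHom_ext
      apply MvPolynomial.algHom_ext
      rintro (i | k | j)
      · change Ideal.Quotient.mkₐ ℤ I (aeval w (X (Sum.inl i))) =
          g (Ideal.Quotient.mk _ (X (Sum.inl i)))
        rw [aeval_X]
        exact hv _
      · change Ideal.Quotient.mkₐ ℤ I (aeval w (X (Sum.inr (Sum.inl k)))) =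
          g (Ideal.Quotient.mk _ (X (Sum.inr (Sum.inl k))))
        rw [aeval_X]
        exact hv _
      · change Ideal.Quotient.mkₐ ℤ I (aeval w (X (Sum.inr (Sum.inr j)))) =
          g (Ideal.Quotient.mk _ (X (Sum.inr (Sum.inr j))))
        rw [aeval_X]
        change Ideal.Quotient.mkₐ ℤ I ((1 - d) * v (Sum.inr (Sum.inr j))) = _
        rw [map_mul, map_sub, hd, map_one, sub_zero, one_mul]
        exact hv _
  finitePresentation :=
    Algebra.FinitePresentation.quotient ⟨{cubicPoly H - 1}, by rw [Finset.coe_singleton]⟩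

/-- The hypergraph of a system. -/
def graphOf (E : Fin m → Finset (Option (Fin a) × Option (Fin b))) :
    Finset (Option (Fin a) × Option (Fin b) × Fin m) :=
  univ.filter fun h => (h.1, h.2.1) ∈ E h.2.2

lemma sum_graphOf {κ : Type} [CommRing κ] (E : Fin m → Finset (Option (Fin a) × Option (Fin b)))
    (x : Fin a → κ) (y : Fin b → κ) (z : Fin m → κ) :
    ∑ h ∈ graphOf E, hat x h.1 * hat y h.2.1 * z h.2.2 = ∑ j, z j * val (E j) x y := by
  classical
  let emb : ∀ j : Fin m, Option (Fin a) × Option (Fin b) ↪ Option (Fin a) × Option (Fin b) × Fin m :=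
    fun j => ⟨fun q => (q.1, q.2, j), fun q q' h => by
        simp only [Prod.mk.injEq, and_true] at h
        exact Prod.ext h.1 h.2⟩
  have h1 : graphOf E = (univ : Finset (Fin m)).biUnion fun j => (E j).map (emb j) := by
    ext ⟨i, k, j⟩
    simp only [graphOf, mem_filter, mem_univ, true_and, mem_biUnion, mem_map]
    constructor
    · intro h
      exact ⟨j, (i, k), h, rfl⟩
    · rintro ⟨j', ⟨i', k'⟩, h, heq⟩
      have h2 : (i', k', j') = (i, k, j) := heq
      simp only [Prod.mk.injEq] at h2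
      obtain ⟨rfl, rfl, rfl⟩ := h2
      exact h
  rw [h1, sum_biUnion]
  · apply sum_congr rfl
    intro j _
    rw [sum_map, val, mul_sum]
    exact sum_congr rfl fun q _ => by
      change hat x q.1 * hat y q.2 * z j = _
      ring
  · intro j _ j' _ hne
    rw [Function.onFun, disjoint_left]
    intro h h2 h3
    simp only [mem_map] at h2 h3
    obtain ⟨q, -, rfl⟩ := h2
    obtain ⟨q', -, h4⟩ := h3
    have h5 : (q'.1, q'.2, j') = (q.1, q.2, j) := h4
    simp only [Prod.mk.injEq] at h5
    exact hne h5.2.2.symm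

lemma graphOf_sparse (E : Fin m → Finset (Option (Fin a) × Option (Fin b)))
    (hE : ∀ j, (E j).card ≤ 3) (j : Fin m) : ((graphOf E).filter fun h => h.2.2 = j).card ≤ 3 := by
  refine le_trans ?_ (hE j)
  apply card_le_card_of_injOn fun h => (h.1, h.2.1)
  · intro h hh
    simp only [graphOf, coe_filter, mem_filter, mem_univ, true_and, Set.mem_ofPred_eq] at hh
    rw [← hh.2]
    exact hh.1
  · intro h hh h' hh' heq
    simp only [graphOf, coe_filter, mem_filter, mem_univ, true_and, Set.mem_ofPred_eq] at hh hh'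
    simp only [Prod.mk.injEq] at heq
    exact Prod.ext heq.1 (Prod.ext heq.2 (hh.2.trans hh'.2.symm))

/-- The number of the points of the cubic hypersurface of a system. -/
lemma card_cubic (E : Fin (m + 1) → Finset (Option (Fin a) × Option (Fin b))) (κ : Type) [Field κ]
    [Finite κ] :
    Nat.card (cubicPoints (graphOf E) κ) + Nat.card κ ^ m *
        Nat.card {v : (Fin a → κ) × (Fin b → κ) // ∀ j, val (E j) v.1 v.2 = 0} =
      Nat.card κ ^ (m + a + b) := by
  classical
  have e1 : cubicPoints (graphOf E) κ ≃ {w : ((Fin a → κ) × (Fin b → κ)) × (Fin (m + 1) → κ) //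
      ∑ j, w.2 j * val (E j) w.1.1 w.1.2 = 1} := by
    refine Equiv.subtypeEquiv (((Equiv.sumArrowEquivProdArrow _ _ _).trans
      ((Equiv.refl _).prodCongr (Equiv.sumArrowEquivProdArrow _ _ _))).trans
        (Equiv.prodAssoc _ _ _).symm) ?_
    intro v
    rw [← sum_graphOf]
    change aeval v (cubicPoly (graphOf E)) = 1 ↔ _
    rw [aeval_cubicPoly]
    rfl
  have e2 : {v : (Fin a → κ) × (Fin b → κ) // ∀ j, val (E j) v.1 v.2 = 0} ≃
      {v : (Fin a → κ) × (Fin b → κ) // (fun v j => val (E j) v.1 v.2 :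
        (Fin a → κ) × (Fin b → κ) → Fin (m + 1) → κ) v = 0} :=
    Equiv.subtypeEquiv (Equiv.refl _) fun v => ⟨fun h => funext h, fun h j => congrFun h j⟩
  have h1 := card_family (κ := κ) (J := Fin (m + 1)) (P := (Fin a → κ) × (Fin b → κ))
    fun v j => val (E j) v.1 v.2
  rw [← Nat.card_congr e1, ← Nat.card_congr e2, Fintype.card_fin, Nat.card_prod, Nat.card_fun,
    Nat.card_fun, Nat.card_eq_fintype_card (α := Fin a), Nat.card_eq_fintype_card (α := Fin b),
    Fintype.card_fin, Fintype.card_fin] at h1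
  have hq : 0 < Nat.card κ := Nat.card_pos
  apply Nat.eq_of_mul_eq_mul_left hq
  rw [mul_add]
  calc _ = Nat.card κ * Nat.card (cubicPoints (graphOf E) κ) + Nat.card κ ^ (m + 1) *
        Nat.card {v : (Fin a → κ) × (Fin b → κ) // ∀ j, val (E j) v.1 v.2 = 0} := by
        rw [pow_succ]; ring
    _ = Nat.card κ ^ (m + 1) * (Nat.card κ ^ a * Nat.card κ ^ b) := h1
    _ = _ := by ring

/-- The points over `κ` of the closed subscheme `G = 0` of the affine space of dimension `N`. -/
def affPoints {N : ℕ} (G : Finset (MvPolynomial (Fin N) ℤ)) (κ : Type) [Field κ] :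
    Set (Fin N → κ) := {w | ∀ F ∈ G, aeval w F = 0}

/-- **The cubic hypersurface of an affine scheme.** -/
theorem exists_cubic_aff {N : ℕ} (G : Finset (MvPolynomial (Fin N) ℤ)) :
    ∃ (b m : ℕ) (H : Finset (Option (Fin N) × Option (Fin b) × Fin (m + 1))),
      (∀ j, (H.filter fun h => h.2.2 = j).card ≤ 3) ∧ 3 ≤ b ∧
      ∀ (κ : Type) [Field κ] [Finite κ],
        Nat.card (cubicPoints H κ) + Nat.card κ ^ m * Nat.card (affPoints G κ) =
          Nat.card κ ^ (m + N + b) := by
  classical
  obtain ⟨b, m, E, hE, hb, hcount⟩ := exists_system (Fintype.card_fin N) G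
  refine ⟨b, m, graphOf E, graphOf_sparse E hE, hb, ?_⟩
  intro κ _ _
  have h1 := card_cubic E κ
  rw [hcount κ] at h1
  exact h1

/-- **The cubic hypersurface of a projective scheme.** -/
theorem exists_cubic {n : ℕ} (G : Finset (MvPolynomial (Fin (n + 1)) ℤ))
    (hG : ∀ F ∈ G, ∃ d, F.IsHomogeneous d) :
    ∃ (a b m : ℕ) (H : Finset (Option (Fin a) × Option (Fin b) × Fin (m + 1))),
      2 * n < a + b ∧ (∀ j, (H.filter fun h => h.2.2 = j).card ≤ 3) ∧
      ∀ (κ : Type) [Field κ] [Finite κ],
        Nat.card (cubicPoints H κ) + Nat.card κ ^ (m + n) * Nat.card (projPoints G κ) =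
          Nat.card κ ^ (m + a + b) := by
  classical
  obtain ⟨b, m, E, hE, hb, hcount⟩ := exists_system rfl (jouSet G)
  refine ⟨_, b, m, graphOf E, ?_, graphOf_sparse E hE, ?_⟩
  · rw [Fintype.card_prod, Fintype.card_fin]
    nlinarith
  · intro κ _ _
    have h1 := card_cubic E κ
    rw [hcount κ] at h1
    have h2 := card_jou (κ := κ) hG
    have hq : 0 < Nat.card κ := Nat.card_pos
    have h3 : Nat.card {A : Fin (n + 1) × Fin (n + 1) → κ // ∀ F ∈ jouSet G, aeval A F = 0} =
        Nat.card κ ^ n * Nat.card (projPoints G κ) := by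
      apply Nat.eq_of_mul_eq_mul_left hq
      rw [h2, pow_succ]
      ring
    rw [h3, ← mul_assoc, ← pow_add] at h1
    exact h1

/-- The equivalence of the points of the cubic hypersurface with the solutions of
`∑ z_j q_j(x, y) = 1`. -/
lemma card_cubicPoints {κ : Type} [Field κ] [Finite κ] {N b m : ℕ}
    (H : Finset (Option (Fin N) × Option (Fin b) × Fin (m + 1))) :
    ((Nat.card (cubicPoints H κ) : ℕ) : ℤ) = (Nat.card κ : ℤ) ^ (m + N + b) -
      (Nat.card κ : ℤ) ^ m * (Nat.card {v : (Fin N → κ) × (Fin b → κ) //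
        ∀ j, val (univ.filter fun t => (t.1, t.2, j) ∈ H) v.1 v.2 = 0} : ℤ) := by
  classical
  have h0 : H = graphOf fun j => univ.filter fun t => (t.1, t.2, j) ∈ H := by
    ext ⟨i, k, j⟩
    simp [graphOf]
  have h1 := card_cubic (fun j => univ.filter fun t => (t.1, t.2, j) ∈ H) κ
  rw [← h0] at h1
  rw [eq_sub_iff_add_eq]
  exact_mod_cast h1

end Pool.Agent.KS6_3.B2
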