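import Pool.Agent.KS6_3.B2.Count

/-!
# Every affine scheme of finite type over `ℤ` is the scheme of the solutions of a system of
equations `∑_{(i, k) ∈ E_j} x̂_i ŷ_k = 0` with at most three terms, where the `x_i` are the
coordinates of the affine space
-/

set_option autoImplicit false

namespace Pool.Agent.KS6_3.B2

open Finset

/-- The extension of the tuple `x` by the value `1` at `none`. -/
def hat {κ : Type} [One κ] {A : Type} (x : A → κ) : Option A → κ := fun o => o.elim 1 x

/-- The value of a sum of monomials. -/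
def val {κ : Type} [CommRing κ] {A B : Type} (E : Finset (Option A × Option B)) (x : A → κ)
    (y : B → κ) : κ := ∑ h ∈ E, hat x h.1 * hat y h.2

/-- Arithmetic expressions in the variables `ι` in which only the multiplication by a variable is
allowed. -/
inductive Ex (ι : Type) : Type where
  | one : Ex ι
  | neg1 : Ex ι
  | add (u v : Ex ι) : Ex ι
  | mul (i : ι) (v : Ex ι) : Ex ι
deriving DecidableEq

namespace Ex

variable {ι : Type}

/-- The value of an expression. -/
def eval {κ : Type} [CommRing κ] (w : ι → κ) : Ex ι → κ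
  | one => 1
  | neg1 => -1
  | add u v => eval w u + eval w v
  | mul i v => w i * eval w v

lemma exists_nat (n : ℕ) : ∃ e : Ex ι, ∀ (κ : Type) [CommRing κ] (w : ι → κ), e.eval w = n := by
  induction n with
  | zero => exact ⟨add one neg1, fun κ _ w => by simp [eval]⟩
  | succ n ih =>
    obtain ⟨e, he⟩ := ih
    exact ⟨add e one, fun κ _ w => by simp [eval, he]⟩

lemma exists_negNat (n : ℕ) :
    ∃ e : Ex ι, ∀ (κ : Type) [CommRing κ] (w : ι → κ), e.eval w = -(n : κ) := by
  induction n with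
  | zero => exact ⟨add one neg1, fun κ _ w => by simp [eval]⟩
  | succ n ih =>
    obtain ⟨e, he⟩ := ih
    exact ⟨add e neg1, fun κ _ w => by simp [eval, he]; ring⟩

lemma exists_int (n : ℤ) : ∃ e : Ex ι, ∀ (κ : Type) [CommRing κ] (w : ι → κ), e.eval w = n := by
  obtain ⟨m, rfl | rfl⟩ := n.eq_nat_or_neg
  · obtain ⟨e, he⟩ := exists_nat (ι := ι) m
    exact ⟨e, fun κ _ w => by simp [he]⟩
  · obtain ⟨e, he⟩ := exists_negNat (ι := ι) m
    exact ⟨e, fun κ _ w => by simp [he]⟩

/-- Every polynomial with integral coefficients is the value of an expression. -/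
lemma exists_poly (F : MvPolynomial ι ℤ) :
    ∃ e : Ex ι, ∀ (κ : Type) [CommRing κ] (w : ι → κ), e.eval w = MvPolynomial.aeval w F := by
  induction F using MvPolynomial.induction_on with
  | C a =>
    obtain ⟨e, he⟩ := exists_int (ι := ι) a
    exact ⟨e, fun κ _ w => by simp [he]⟩
  | add p q hp hq =>
    obtain ⟨e, he⟩ := hp
    obtain ⟨f, hf⟩ := hq
    exact ⟨add e f, fun κ _ w => by simp [eval, he, hf]⟩
  | mul_X p i hp =>
    obtain ⟨e, he⟩ := hp
    exact ⟨mul i e, fun κ _ w => by simp [eval, he, mul_comm]⟩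

variable [DecidableEq ι]

/-- The subexpressions. -/
def sub : Ex ι → Finset (Ex ι)
  | one => {one}
  | neg1 => {neg1}
  | add u v => insert (add u v) (sub u ∪ sub v)
  | mul i v => insert (mul i v) (sub v)

lemma self_mem_sub (e : Ex ι) : e ∈ sub e := by
  cases e <;> simp [sub]

lemma sub_trans {e u : Ex ι} (h : u ∈ sub e) : sub u ⊆ sub e := by
  induction e with
  | one => simp only [sub, mem_singleton] at h; subst h; exact Subset.refl _
  | neg1 => simp only [sub, mem_singleton] at h; subst h; exact Subset.refl _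
  | add a b ha hb =>
    simp only [sub, mem_insert, mem_union] at h
    rcases h with h | h | h
    · subst h; exact Subset.refl _
    · exact (ha h).trans fun x hx => by simp [sub, hx]
    · exact (hb h).trans fun x hx => by simp [sub, hx]
  | mul a b hb =>
    simp only [sub, mem_insert] at h
    rcases h with h | h
    · subst h; exact Subset.refl _
    · exact (hb h).trans fun x hx => by simp [sub, hx]

end Ex

section System

variable {ι : Type} [DecidableEq ι] (I : Finset (Ex ι)) (O : Finset (Ex ι))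

/-- The unknowns `y_e`, `y'_e`, `y''_e`. -/
abbrev Un : Type := Fin 3 × I

/-- The equation `y_e + y'_e = 0`. -/
def eq0 (e : I) : Finset (Option ι × Option (Un I)) := {(none, some (0, e)), (none, some (1, e))}

/-- The equation `y'_e + y''_e = 0`. -/
def eq1 (e : I) : Finset (Option ι × Option (Un I)) := {(none, some (1, e)), (none, some (2, e))}

/-- The equation of the gate `e`. -/
def eq2 (hI : ∀ e ∈ I, Ex.sub e ⊆ I) : I → Finset (Option ι × Option (Un I))
  | ⟨Ex.one, h⟩ => {(none, some (1, ⟨Ex.one, h⟩)), (none, none)}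
  | ⟨Ex.neg1, h⟩ => {(none, some (0, ⟨Ex.neg1, h⟩)), (none, none)}
  | ⟨Ex.add u v, h⟩ =>
    {(none, some (0, ⟨u, hI _ h (by simp [Ex.sub, Ex.self_mem_sub])⟩)),
      (none, some (2, ⟨v, hI _ h (by simp [Ex.sub, Ex.self_mem_sub])⟩)),
      (none, some (1, ⟨Ex.add u v, h⟩))}
  | ⟨Ex.mul i v, h⟩ =>
    {(some i, some (0, ⟨v, hI _ h (by simp [Ex.sub, Ex.self_mem_sub])⟩)),
      (none, some (1, ⟨Ex.mul i v, h⟩))}

/-- The equation `y_e = 0` for the elements `e` of `O`. -/
def eq3 (e : I) : Finset (Option ι × Option (Un I)) :=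
  if e.1 ∈ O then {(none, some (0, e))} else ∅

/-- The system of equations. -/
def sys (hI : ∀ e ∈ I, Ex.sub e ⊆ I) (j : Fin 4 × I) : Finset (Option ι × Option (Un I)) :=
  ![eq0 I j.2, eq1 I j.2, eq2 I hI j.2, eq3 I O j.2] j.1

variable {I O}

lemma sys_card (hI : ∀ e ∈ I, Ex.sub e ⊆ I) (j : Fin 4 × I) : (sys I O hI j).card ≤ 3 := by
  obtain ⟨t, e, he⟩ := j
  fin_cases t
  · exact (card_le_two).trans (by norm_num)
  · exact (card_le_two).trans (by norm_num)
  · change (eq2 I hI ⟨e, he⟩).card ≤ 3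
    cases e with
    | one => exact (card_le_two).trans (by norm_num)
    | neg1 => exact (card_le_two).trans (by norm_num)
    | add u v => exact card_le_three
    | mul u v => exact (card_le_two).trans (by norm_num)
  · change (eq3 I O ⟨e, he⟩).card ≤ 3
    unfold eq3
    split_ifs <;> simp

section Val

variable {κ : Type} [CommRing κ] (x : ι → κ) (y : Un I → κ)

lemma val_eq0 (e : I) : val (eq0 I e) x y = y (0, e) + y (1, e) := by
  unfold val eq0
  rw [sum_pair (by simp)]
  simp [hat]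

lemma val_eq1 (e : I) : val (eq1 I e) x y = y (1, e) + y (2, e) := by
  unfold val eq1
  rw [sum_pair (by simp)]
  simp [hat]

lemma val_eq3 (e : I) : val (eq3 I O e) x y = 0 ↔ (e.1 ∈ O → y (0, e) = 0) := by
  unfold val eq3
  split_ifs with h
  · simp [hat, h]
  · simp [h]

lemma val_one (hI : ∀ e ∈ I, Ex.sub e ⊆ I) (h : Ex.one ∈ I) :
    val (eq2 I hI ⟨Ex.one, h⟩) x y = y (1, ⟨Ex.one, h⟩) + 1 := by
  unfold val
  simp only [eq2]
  rw [sum_pair (by simp)]
  simp [hat]

lemma val_neg1 (hI : ∀ e ∈ I, Ex.sub e ⊆ I) (h : Ex.neg1 ∈ I) :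
    val (eq2 I hI ⟨Ex.neg1, h⟩) x y = y (0, ⟨Ex.neg1, h⟩) + 1 := by
  unfold val
  simp only [eq2]
  rw [sum_pair (by simp)]
  simp [hat]

lemma val_add (hI : ∀ e ∈ I, Ex.sub e ⊆ I) (u v : Ex ι) (h : Ex.add u v ∈ I) (hu : u ∈ I)
    (hv : v ∈ I) :
    val (eq2 I hI ⟨Ex.add u v, h⟩) x y =
      y (0, ⟨u, hu⟩) + y (2, ⟨v, hv⟩) + y (1, ⟨Ex.add u v, h⟩) := by
  unfold val
  simp only [eq2]
  rw [sum_insert (by simp), sum_pair (by simp)]
  simp [hat, add_assoc]

lemma val_mul (hI : ∀ e ∈ I, Ex.sub e ⊆ I) (i : ι) (v : Ex ι) (h : Ex.mul i v ∈ I) (hv : v ∈ I) :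
    val (eq2 I hI ⟨Ex.mul i v, h⟩) x y = x i * y (0, ⟨v, hv⟩) + y (1, ⟨Ex.mul i v, h⟩) := by
  unfold val
  simp only [eq2]
  rw [sum_pair (by simp)]
  simp [hat]

end Val

section Solve

variable {κ : Type} [CommRing κ]

lemma sys_iff (hI : ∀ e ∈ I, Ex.sub e ⊆ I) (x : ι → κ) (y : Un I → κ) :
    (∀ j, val (sys I O hI j) x y = 0) ↔
      (∀ e, val (eq0 I e) x y = 0) ∧ (∀ e, val (eq1 I e) x y = 0) ∧
        (∀ e, val (eq2 I hI e) x y = 0) ∧ ∀ e, val (eq3 I O e) x y = 0 := by
  constructor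
  · intro h
    exact ⟨fun e => h (0, e), fun e => h (1, e), fun e => h (2, e), fun e => h (3, e)⟩
  · rintro ⟨h0, h1, h2, h3⟩ ⟨t, e⟩
    fin_cases t
    · exact h0 e
    · exact h1 e
    · exact h2 e
    · exact h3 e

lemma solve (hI : ∀ e ∈ I, Ex.sub e ⊆ I) (x : ι → κ) (y : Un I → κ)
    (h : ∀ j, val (sys I O hI j) x y = 0) (e : Ex ι) (he : e ∈ I) :
    y (0, ⟨e, he⟩) = e.eval x ∧ y (1, ⟨e, he⟩) = - e.eval x ∧ y (2, ⟨e, he⟩) = e.eval x := by
  obtain ⟨h0, h1, h2, -⟩ := (sys_iff hI x y).mp h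
  have key : ∀ (e : Ex ι) (he : e ∈ I), y (0, ⟨e, he⟩) = e.eval x →
      y (0, ⟨e, he⟩) = e.eval x ∧ y (1, ⟨e, he⟩) = - e.eval x ∧ y (2, ⟨e, he⟩) = e.eval x := by
    intro e he hx
    have a0 := h0 ⟨e, he⟩
    have a1 := h1 ⟨e, he⟩
    rw [val_eq0] at a0
    rw [val_eq1] at a1
    rw [hx] at a0
    have b0 := eq_neg_of_add_eq_zero_right a0
    rw [b0, neg_add_eq_zero] at a1
    exact ⟨hx, b0, a1.symm⟩
  induction e with
  | one =>
    apply key
    have a0 := h0 ⟨_, he⟩
    have a2 := h2 ⟨_, he⟩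
    rw [val_eq0] at a0
    rw [val_one] at a2
    rw [eq_neg_of_add_eq_zero_left a0, eq_neg_of_add_eq_zero_left a2, neg_neg]
    rfl
  | neg1 =>
    apply key
    have a2 := h2 ⟨_, he⟩
    rw [val_neg1] at a2
    rw [eq_neg_of_add_eq_zero_left a2]
    rfl
  | add u v hu hv =>
    apply key
    have mu : u ∈ I := hI _ he (by simp [Ex.sub, Ex.self_mem_sub])
    have mv : v ∈ I := hI _ he (by simp [Ex.sub, Ex.self_mem_sub])
    have a0 := h0 ⟨_, he⟩
    have a2 := h2 ⟨_, he⟩
    rw [val_eq0] at a0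
    rw [val_add x y hI u v he mu mv, (hu mu).1, (hv mv).2.2] at a2
    rw [eq_neg_of_add_eq_zero_left a0, eq_neg_of_add_eq_zero_right a2, neg_neg]
    rfl
  | mul i v hv =>
    apply key
    have mv : v ∈ I := hI _ he (by simp [Ex.sub, Ex.self_mem_sub])
    have a0 := h0 ⟨_, he⟩
    have a2 := h2 ⟨_, he⟩
    rw [val_eq0] at a0
    rw [val_mul x y hI i v he mv, (hv mv).1] at a2
    rw [eq_neg_of_add_eq_zero_left a0, eq_neg_of_add_eq_zero_right a2, neg_neg]
    rfl

/-- The solution of the equations of the gates. -/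
def solY (w : ι → κ) : Un I → κ := fun t => ![t.2.1.eval w, - t.2.1.eval w, t.2.1.eval w] t.1

lemma solved (hI : ∀ e ∈ I, Ex.sub e ⊆ I) (w : ι → κ) (hw : ∀ e ∈ O, e.eval w = 0) (j : Fin 4 × I) :
    val (sys I O hI j) w (solY w) = 0 := by
  revert j
  rw [sys_iff]
  refine ⟨fun e => ?_, fun e => ?_, ?_, fun e => ?_⟩
  · rw [val_eq0]
    exact add_neg_cancel _
  · rw [val_eq1]
    exact neg_add_cancel _
  · rintro ⟨e, he⟩
    cases e with
    | one =>
      rw [val_one]
      exact neg_add_cancel _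
    | neg1 =>
      rw [val_neg1]
      exact neg_add_cancel _
    | add u v =>
      rw [val_add _ _ hI u v he (hI _ he (by simp [Ex.sub, Ex.self_mem_sub]))
        (hI _ he (by simp [Ex.sub, Ex.self_mem_sub]))]
      exact add_neg_cancel _
    | mul i v =>
      rw [val_mul _ _ hI i v he (hI _ he (by simp [Ex.sub, Ex.self_mem_sub]))]
      exact add_neg_cancel _
  · rw [val_eq3]
    exact fun h => hw _ h

/-- The solutions of the system. -/
def solEquiv (hI : ∀ e ∈ I, Ex.sub e ⊆ I) (hO : O ⊆ I) :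
    {v : (ι → κ) × (Un I → κ) // ∀ j, val (sys I O hI j) v.1 v.2 = 0} ≃
      {w : ι → κ // ∀ e ∈ O, e.eval w = 0} where
  toFun v := ⟨v.1.1, by
    intro e he
    rw [← (solve hI v.1.1 v.1.2 v.2 e (hO he)).1]
    exact (val_eq3 _ _ _).mp (((sys_iff hI _ _).mp v.2).2.2.2 ⟨e, hO he⟩) he⟩
  invFun w := ⟨(w.1, solY w.1), solved hI w.1 w.2⟩
  left_inv v := by
    apply Subtype.ext
    apply Prod.ext
    · rfl
    · funext s
      obtain ⟨t, e⟩ := s
      have h := solve hI v.1.1 v.1.2 v.2 e.1 e.2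
      fin_cases t
      · exact h.1.symm
      · exact h.2.1.symm
      · exact h.2.2.symm
  right_inv w := rfl

end Solve

end System

/-- Every system of polynomial equations over `ℤ` in `a` unknowns is equivalent to one with the
equations `∑_{(i, k) ∈ E_j} x̂_i ŷ_k = 0`, with at most three terms, where the `x_i` are the given
unknowns and the `y_k` are new unknowns. -/
theorem exists_system {ι : Type} [Fintype ι] [DecidableEq ι] {a : ℕ} (ha : Fintype.card ι = a)
    (G : Finset (MvPolynomial ι ℤ)) :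
    ∃ (b m : ℕ) (E : Fin (m + 1) → Finset (Option (Fin a) × Option (Fin b))),
      (∀ j, (E j).card ≤ 3) ∧ 3 ≤ b ∧ ∀ (κ : Type) [Field κ] [Finite κ],
        Nat.card {v : (Fin a → κ) × (Fin b → κ) // ∀ j, val (E j) v.1 v.2 = 0} =
          Nat.card {w : ι → κ // ∀ F ∈ G, MvPolynomial.aeval w F = 0} := by
  classical
  choose ex hex using fun F : MvPolynomial ι ℤ => Ex.exists_poly F
  let O : Finset (Ex ι) := G.image ex
  let I : Finset (Ex ι) := insert Ex.one (O.biUnion Ex.sub)
  have hI : ∀ e ∈ I, Ex.sub e ⊆ I := by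
    intro e he
    simp only [I, mem_insert, mem_biUnion] at he
    rcases he with rfl | ⟨o, ho, heo⟩
    · simp [Ex.sub, I]
    · intro u hu
      simp only [I, mem_insert, mem_biUnion]
      exact Or.inr ⟨o, ho, Ex.sub_trans heo hu⟩
  have hO : O ⊆ I := by
    intro e he
    simp only [I, mem_insert, mem_biUnion]
    exact Or.inr ⟨e, he, Ex.self_mem_sub e⟩
  have hone : Ex.one ∈ I := by simp [I]
  have hIpos : 0 < Fintype.card I := Fintype.card_pos_iff.mpr ⟨⟨_, hone⟩⟩
  have hpos : 0 < Fintype.card (Fin 4 × I) := Fintype.card_pos_iff.mpr ⟨(0, ⟨_, hone⟩)⟩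
  obtain ⟨m, hm⟩ : ∃ m, Fintype.card (Fin 4 × I) = m + 1 := ⟨_, (Nat.succ_pred_eq_of_pos hpos).symm⟩
  let eX : ι ≃ Fin a := Fintype.equivFinOfCardEq ha
  let eY : Un I ≃ Fin (Fintype.card (Un I)) := Fintype.equivFin _
  let eJ : Fin 4 × I ≃ Fin (m + 1) := Fintype.equivFinOfCardEq hm
  let M : Option ι × Option (Un I) ↪ Option (Fin a) × Option (Fin (Fintype.card (Un I))) :=
    ((Equiv.optionCongr eX).prodCongr (Equiv.optionCongr eY)).toEmbedding
  refine ⟨_, m, fun j => (sys I O hI (eJ.symm j)).map M, ?_, ?_, ?_⟩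
  · intro j
    rw [card_map]
    exact sys_card hI _
  · rw [Fintype.card_prod, Fintype.card_fin]
    omega
  · intro κ _ _
    have hv : ∀ (v : (Fin a → κ) × (Fin (Fintype.card (Un I)) → κ)) (j : Fin 4 × I),
        val ((sys I O hI j).map M) v.1 v.2 = val (sys I O hI j) (v.1 ∘ eX) (v.2 ∘ eY) := by
      intro v j
      unfold val
      rw [sum_map]
      apply sum_congr rfl
      rintro ⟨i, k⟩ _
      have h1 : hat v.1 (M (i, k)).1 = hat (v.1 ∘ eX) i := by
        cases i <;> rfl
      have h2 : hat v.2 (M (i, k)).2 = hat (v.2 ∘ eY) k := by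
        cases k <;> rfl
      rw [h1, h2]
    have e1 : {v : (Fin a → κ) × (Fin (Fintype.card (Un I)) → κ) //
          ∀ j, val ((sys I O hI (eJ.symm j)).map M) v.1 v.2 = 0} ≃
        {v : (ι → κ) × (Un I → κ) // ∀ j, val (sys I O hI j) v.1 v.2 = 0} := by
      refine Equiv.subtypeEquiv ((Equiv.arrowCongr eX.symm (Equiv.refl κ)).prodCongr
        (Equiv.arrowCongr eY.symm (Equiv.refl κ))) ?_
      intro v
      constructor
      · intro h j
        have h1 := h (eJ j)
        rw [Equiv.symm_apply_apply, hv] at h1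
        exact h1
      · intro h j
        rw [hv]
        exact h _
    have e2 : {w : ι → κ // ∀ e ∈ O, e.eval w = 0} ≃
        {w : ι → κ // ∀ F ∈ G, MvPolynomial.aeval w F = 0} := by
      refine Equiv.subtypeEquiv (Equiv.refl _) ?_
      intro w
      simp only [O, mem_image, forall_exists_index, and_imp, forall_apply_eq_imp_iff₂, hex,
        Equiv.refl_apply]
    exact Nat.card_congr ((e1.trans (solEquiv hI hO)).trans e2)

end Pool.Agent.KS6_3.B2
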