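import Mathlib

/-!
# The L-function of weight `i` attached to numbers of points
-/

set_option autoImplicit false

namespace Pool.Agent.KS6_3.B2

open Finset

/-- `μ` is the function with finite support on `ℂ` whose values are the multiplicities (positive
for even weights, negative for odd weights, in the case of a smooth proper scheme) of the
eigenvalues of Frobenius that give the numbers of points `N k`, `k ≥ 1`, over the fields with `p ^ k`
elements: `N k = ∑ μ(α) α ^ k`. For all `α` that occur `|α| ^ 2` is an integral power of `p`. -/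
def IsFrob (p : ℕ) (N : ℕ → ℂ) (μ : ℂ →₀ ℤ) : Prop :=
  (∀ α ∈ μ.support, ∃ w : ℤ, ‖α‖ ^ 2 = (p : ℝ) ^ w) ∧
    ∀ k, 1 ≤ k → N k = μ.sum fun α t => (t : ℂ) * α ^ k

/-- The Euler factor of weight `i`: the product of the `(1 - α p ^ (-s)) ^ (-(-1) ^ i μ(α))` over the
`α` with `|α| ^ 2 = p ^ i`. -/
noncomputable def eulerFactor (μ : ℂ →₀ ℤ) (p : ℕ) (i : ℤ) (s : ℂ) : ℂ :=
  ∏ α ∈ μ.support with ‖α‖ ^ 2 = (p : ℝ) ^ i,
    (1 - α * (p : ℂ) ^ (-s)) ^ (-(i.negOnePow : ℤ) * μ α)

/-- `L` is, in some half-plane, the product of the Euler factors of weight `i` of the numbers of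
points `N p k` over the primes `p ∉ S`. -/
def IsL (S : Set Nat.Primes) (N : Nat.Primes → ℕ → ℂ) (i : ℤ) (L : ℂ → ℂ) : Prop :=
  ∃ μ : Nat.Primes → ℂ →₀ ℤ, (∀ p, p ∉ S → IsFrob p (N p) (μ p)) ∧
    ∃ σ : ℝ, ∀ s : ℂ, σ < s.re → L s ≠ 0 ∧
      HasProd (fun p : {p : Nat.Primes // p ∉ S} => eulerFactor (μ p) p i s) (L s)

/-- The multiplicities are determined by the numbers of points. -/
theorem isFrob_unique {p : ℕ} (hp : p.Prime) {N : ℕ → ℂ} {μ ν : ℂ →₀ ℤ} (hμ : IsFrob p N μ)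
    (hν : IsFrob p N ν) : μ = ν := by
  classical
  have hpos : ∀ {μ : ℂ →₀ ℤ}, IsFrob p N μ → ∀ α ∈ μ.support, α ≠ 0 := by
    intro μ h α hα h0
    obtain ⟨w, hw⟩ := h.1 α hα
    rw [h0, norm_zero, zero_pow two_ne_zero] at hw
    exact (zpow_pos (Nat.cast_pos.mpr hp.pos : (0 : ℝ) < p) w).ne hw
  let pw : ℂ → (Multiplicative ℕ →* ℂ) := fun α => powersHom ℂ α
  have hpw : ∀ (α : ℂ) (k : ℕ), pw α (Multiplicative.ofAdd k) = α ^ k := by
    intro α k
    exact powersHom_apply α _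
  have hinj : Function.Injective pw := (powersHom ℂ).injective
  have hlin := (linearIndependent_monoidHom (Multiplicative ℕ) ℂ).comp pw hinj
  rw [linearIndependent_iff'] at hlin
  let δ : ℂ →₀ ℤ := μ - ν
  have h1 : ∀ k, 1 ≤ k → δ.sum (fun α t => (t : ℂ) * α ^ k) = 0 := by
    intro k hk
    rw [Finsupp.sum_sub_index (fun α b₁ b₂ => by push_cast; ring), ← hμ.2 k hk, ← hν.2 k hk,
      sub_self]
  have h2 := hlin δ.support (fun α => (δ α : ℂ) * α) (by
    funext t
    have h3 := h1 (Multiplicative.toAdd t + 1) (Nat.le_add_left 1 _)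
    rw [Finset.sum_apply, Pi.zero_apply, ← h3, Finsupp.sum]
    apply sum_congr rfl
    intro α _
    change (δ α : ℂ) * α * pw α (Multiplicative.ofAdd (Multiplicative.toAdd t)) = _
    rw [hpw, pow_succ]
    ring)
  rw [← sub_eq_zero]
  change δ = 0
  rw [← Finsupp.support_eq_empty, eq_empty_iff_forall_notMem]
  intro α hα
  have h4 := h2 α hα
  have h5 : α ≠ 0 := by
    have h6 : α ∈ μ.support ∪ ν.support := Finsupp.support_sub hα
    rcases mem_union.mp h6 with h | h
    · exact hpos hμ α h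
    · exact hpos hν α h
  rcases mul_eq_zero.mp h4 with h | h
  · rw [Finsupp.mem_support_iff] at hα
    exact hα (Int.cast_eq_zero.mp h)
  · exact h5 h

/-- The L-function of weight `i` is determined, in a half-plane, by the numbers of points. -/
theorem isL_unique {S : Set Nat.Primes} {N : Nat.Primes → ℕ → ℂ} {i : ℤ} {L L' : ℂ → ℂ}
    (h : IsL S N i L) (h' : IsL S N i L') : ∃ σ : ℝ, ∀ s : ℂ, σ < s.re → L s = L' s := by
  obtain ⟨μ, hμ, σ, hσ⟩ := h
  obtain ⟨ν, hν, τ, hτ⟩ := h'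
  refine ⟨max σ τ, fun s hs => ?_⟩
  have h1 := (hσ s ((le_max_left _ _).trans_lt hs)).2
  have h2 := (hτ s ((le_max_right _ _).trans_lt hs)).2
  have h3 : (fun p : {p : Nat.Primes // p ∉ S} => eulerFactor (μ p) p i s) =
      fun p : {p : Nat.Primes // p ∉ S} => eulerFactor (ν p) p i s := by
    funext p
    rw [isFrob_unique p.1.2 (hμ p.1 p.2) (hν p.1 p.2)]
  rw [h3] at h1
  exact h1.unique h2

section Shift

variable (p : ℕ) (c D : ℤ) (μ : ℂ →₀ ℤ)

/-- The multiplicities of the eigenvalues for `p ^ (D k) - p ^ (c k) N k`: the multiplicity one of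
the eigenvalue `p ^ D` minus the multiplicities `μ` for `N`, every eigenvalue being multiplied by
`p ^ c`. -/
noncomputable def shift : ℂ →₀ ℤ :=
  Finsupp.single ((p : ℂ) ^ D) 1 - μ.mapDomain fun α => (p : ℂ) ^ c * α

variable {p}

lemma cpow_ne (hp : p.Prime) (c : ℤ) : (p : ℂ) ^ c ≠ 0 :=
  zpow_ne_zero _ (Nat.cast_ne_zero.mpr hp.ne_zero)

lemma mul_inj (hp : p.Prime) (c : ℤ) : Function.Injective fun α : ℂ => (p : ℂ) ^ c * α :=
  mul_right_injective₀ (cpow_ne hp c)

lemma shift_apply (hp : p.Prime) (α : ℂ) (h : (p : ℂ) ^ c * α ≠ (p : ℂ) ^ D) :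
    shift p c D μ ((p : ℂ) ^ c * α) = - μ α := by
  have h1 : (μ.mapDomain fun α => (p : ℂ) ^ c * α) ((p : ℂ) ^ c * α) = μ α :=
    Finsupp.mapDomain_apply (mul_inj hp c) μ α
  rw [shift, Finsupp.sub_apply, h1, Finsupp.single_apply, if_neg (Ne.symm h), zero_sub]

lemma norm_sq_mul (p : ℕ) (c : ℤ) (α : ℂ) :
    ‖(p : ℂ) ^ c * α‖ ^ 2 = (p : ℝ) ^ (2 * c) * ‖α‖ ^ 2 := by
  rw [norm_mul, norm_zpow, Complex.norm_natCast, mul_pow, ← zpow_natCast ((p : ℝ) ^ c) 2, ← zpow_mul,
    mul_comm c]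
  rfl

lemma norm_sq_pow (p : ℕ) (D : ℤ) : ‖(p : ℂ) ^ D‖ ^ 2 = (p : ℝ) ^ (2 * D) := by
  have h := norm_sq_mul p D 1
  rwa [mul_one, norm_one, one_pow, mul_one] at h

lemma shift_support (hp : p.Prime) {β : ℂ} (hβ : β ∈ (shift p c D μ).support) :
    β = (p : ℂ) ^ D ∨ ∃ α ∈ μ.support, β = (p : ℂ) ^ c * α := by
  classical
  by_cases h : β = (p : ℂ) ^ D
  · exact Or.inl h
  · right
    refine ⟨(p : ℂ) ^ (-c) * β, ?_, ?_⟩
    · rw [Finsupp.mem_support_iff] at hβ ⊢
      intro h0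
      apply hβ
      have h1 : β = (p : ℂ) ^ c * ((p : ℂ) ^ (-c) * β) := by
        rw [← mul_assoc, zpow_neg, mul_inv_cancel₀ (cpow_ne hp c), one_mul]
      rw [h1, shift_apply c D μ hp _ (by rwa [← h1]), h0, neg_zero]
    · rw [← mul_assoc, zpow_neg, mul_inv_cancel₀ (cpow_ne hp c), one_mul]

variable {c D μ}

/-- The eigenvalues of Frobenius of `p ^ (D k) - p ^ (c k) N k`. -/
theorem isFrob_shift (hp : p.Prime) {N N' : ℕ → ℂ}
    (hN : ∀ k, 1 ≤ k → N' k + ((p : ℂ) ^ c) ^ k * N k = ((p : ℂ) ^ D) ^ k)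
    (h : IsFrob p N μ) : IsFrob p N' (shift p c D μ) := by
  constructor
  · intro β hβ
    rcases shift_support c D μ hp hβ with rfl | ⟨α, hα, rfl⟩
    · exact ⟨2 * D, norm_sq_pow p D⟩
    · obtain ⟨w, hw⟩ := h.1 α hα
      refine ⟨2 * c + w, ?_⟩
      rw [norm_sq_mul, hw, zpow_add₀ (Nat.cast_ne_zero.mpr hp.ne_zero)]
  · intro k hk
    have h1 : (shift p c D μ).sum (fun α t => (t : ℂ) * α ^ k) =
        ((p : ℂ) ^ D) ^ k - ((p : ℂ) ^ c) ^ k * μ.sum fun α t => (t : ℂ) * α ^ k := by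
      rw [shift, Finsupp.sum_sub_index (fun α b₁ b₂ => by push_cast; ring),
        Finsupp.sum_single_index (by simp), Finsupp.sum_mapDomain_index (by simp)
          (fun α b₁ b₂ => by push_cast; ring), Int.cast_one, one_mul, Finsupp.mul_sum]
      congr 1
      apply Finsupp.sum_congr
      intro α _
      rw [mul_pow]
      ring
    rw [h1, ← h.2 k hk, ← hN k hk]
    ring

lemma shift_shift (hp : p.Prime) (c D : ℤ) (μ : ℂ →₀ ℤ) :
    shift p (-c) (D - c) (shift p c D μ) = μ := by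
  have hp0 : (p : ℂ) ≠ 0 := Nat.cast_ne_zero.mpr hp.ne_zero
  have h1 : (fun α : ℂ => (p : ℂ) ^ (-c) * α) ∘ (fun α : ℂ => (p : ℂ) ^ c * α) = id := by
    funext α
    rw [Function.comp_apply, ← mul_assoc, ← zpow_add₀ hp0, neg_add_cancel, zpow_zero, one_mul, id]
  have h2 : (p : ℂ) ^ (-c) * (p : ℂ) ^ D = (p : ℂ) ^ (D - c) := by
    rw [← zpow_add₀ hp0, neg_add_eq_sub]
  have h3 : (shift p c D μ).mapDomain (fun α : ℂ => (p : ℂ) ^ (-c) * α) =
      Finsupp.single ((p : ℂ) ^ (D - c)) 1 - μ := by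
    rw [shift, Finsupp.mapDomain_sub, Finsupp.mapDomain_single, h2,
      ← Finsupp.mapDomain_comp, h1, Finsupp.mapDomain_id]
  rw [shift, h3, sub_sub_cancel]

/-- The Euler factors of `p ^ (D k) - p ^ (c k) N k`. -/
theorem eulerFactor_shift (hp : p.Prime) {i : ℤ} (hi : i + 2 * c ≠ 2 * D) (s : ℂ) :
    eulerFactor (shift p c D μ) p (i + 2 * c) s = (eulerFactor μ p i (s - c))⁻¹ := by
  classical
  have hp0 : (p : ℝ) ≠ 0 := Nat.cast_ne_zero.mpr hp.ne_zero
  have hp1 : (1 : ℝ) < p := by exact_mod_cast hp.one_lt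
  have hpc : (p : ℂ) ≠ 0 := Nat.cast_ne_zero.mpr hp.ne_zero
  have hzinj : Function.Injective fun w : ℤ => (p : ℝ) ^ w :=
    zpow_right_injective₀ (by linarith) hp1.ne'
  have hnorm : ∀ α : ℂ, ‖(p : ℂ) ^ c * α‖ ^ 2 = (p : ℝ) ^ (i + 2 * c) ↔ ‖α‖ ^ 2 = (p : ℝ) ^ i := by
    intro α
    rw [norm_sq_mul, zpow_add₀ hp0, mul_comm]
    exact mul_left_inj' (zpow_ne_zero _ hp0)
  have hne : ∀ α : ℂ, ‖α‖ ^ 2 = (p : ℝ) ^ i → (p : ℂ) ^ c * α ≠ (p : ℂ) ^ D := by
    intro α hα h
    have h1 := (hnorm α).mpr hα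
    rw [h, norm_sq_pow] at h1
    exact hi (hzinj h1).symm
  have hneg : ((i + 2 * c).negOnePow : ℤ) = (i.negOnePow : ℤ) := by
    rw [Int.negOnePow_add, Int.negOnePow_two_mul, mul_one]
  unfold eulerFactor
  rw [← prod_inv_distrib]
  symm
  apply prod_bij (fun α _ => (p : ℂ) ^ c * α)
  · intro α hα
    rw [mem_filter, Finsupp.mem_support_iff] at hα ⊢
    refine ⟨?_, (hnorm α).mpr hα.2⟩
    rw [shift_apply c D μ hp α (hne α hα.2)]
    exact neg_ne_zero.mpr hα.1
  · intro α _ β _ h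
    exact mul_inj hp c h
  · intro β hβ
    rw [mem_filter] at hβ
    rcases shift_support c D μ hp hβ.1 with rfl | ⟨α, hα, rfl⟩
    · exfalso
      rw [norm_sq_pow] at hβ
      exact hi (hzinj hβ.2).symm
    · exact ⟨α, mem_filter.mpr ⟨hα, (hnorm α).mp hβ.2⟩, rfl⟩
  · intro α hα
    rw [mem_filter] at hα
    rw [shift_apply c D μ hp α (hne α hα.2), hneg, ← zpow_neg]
    have h1 : (p : ℂ) ^ (-(s - (c : ℂ))) = (p : ℂ) ^ c * (p : ℂ) ^ (-s) := by
      rw [neg_sub, sub_eq_add_neg, Complex.cpow_add _ _ hpc, Complex.cpow_intCast]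
    rw [h1]
    congr 1
    · ring
    · ring

end Shift

/-- The L-functions of `p ^ (D k) - p ^ (c k) N k`. -/
theorem isL_transfer (S : Set Nat.Primes) {N N' : Nat.Primes → ℕ → ℂ} {c D i : ℤ}
    (hi : i + 2 * c ≠ 2 * D)
    (hN : ∀ (p : Nat.Primes) (k : ℕ), 1 ≤ k →
      N' p k + (((p : ℕ) : ℂ) ^ c) ^ k * N p k = (((p : ℕ) : ℂ) ^ D) ^ k)
    {L : ℂ → ℂ} (h : IsL S N i L) : IsL S N' (i + 2 * c) fun s => (L (s - c))⁻¹ := by
  obtain ⟨μ, hμ, σ, hσ⟩ := h
  refine ⟨fun p => shift p c D (μ p), fun p hp => isFrob_shift p.2 (hN p) (hμ p hp), σ + c, ?_⟩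
  intro s hs
  have hs1 : σ < (s - (c : ℂ)).re := by
    rw [Complex.sub_re, Complex.intCast_re]
    linarith
  obtain ⟨h1, h2⟩ := hσ _ hs1
  refine ⟨inv_ne_zero h1, ?_⟩
  have h3 := h2.inv₀ h1
  refine h3.congr_fun fun p => ?_
  exact eulerFactor_shift p.1.2 hi s

lemma rel_symm {p : ℕ} (hp : p.Prime) (c D : ℤ) (k : ℕ) {x y : ℂ}
    (h : x + ((p : ℂ) ^ c) ^ k * y = ((p : ℂ) ^ D) ^ k) :
    y + ((p : ℂ) ^ (-c)) ^ k * x = ((p : ℂ) ^ (D - c)) ^ k := by
  have hp0 : (p : ℂ) ≠ 0 := Nat.cast_ne_zero.mpr hp.ne_zero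
  have h1 : ((p : ℂ) ^ (-c)) ^ k * ((p : ℂ) ^ c) ^ k = 1 := by
    rw [← mul_pow, ← zpow_add₀ hp0, neg_add_cancel, zpow_zero, one_pow]
  have h2 : ((p : ℂ) ^ (D - c)) ^ k = ((p : ℂ) ^ (-c)) ^ k * ((p : ℂ) ^ D) ^ k := by
    rw [← mul_pow, ← zpow_add₀ hp0, neg_add_eq_sub]
  rw [h2, ← h]
  linear_combination (-y) * h1

/-- The eigenvalues of Frobenius of `p ^ (D k) - p ^ (c k) N k`. -/
theorem isFrob_shift_iff {p : ℕ} (hp : p.Prime) {c D : ℤ} {N N' : ℕ → ℂ}
    (hN : ∀ k, 1 ≤ k → N' k + ((p : ℂ) ^ c) ^ k * N k = ((p : ℂ) ^ D) ^ k) (μ : ℂ →₀ ℤ) :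
    IsFrob p N μ ↔ IsFrob p N' (shift p c D μ) := by
  refine ⟨isFrob_shift hp hN, fun h => ?_⟩
  have h1 := isFrob_shift hp (c := -c) (D := D - c) (fun k hk => rel_symm hp c D k (hN k hk)) h
  rwa [shift_shift hp] at h1

/-- The L-functions of `p ^ (D k) - p ^ (c k) N k`. -/
theorem isL_iff (S : Set Nat.Primes) {N N' : Nat.Primes → ℕ → ℂ} {c D i : ℤ}
    (hi : i + 2 * c ≠ 2 * D)
    (hN : ∀ (p : Nat.Primes) (k : ℕ), 1 ≤ k →
      N' p k + (((p : ℕ) : ℂ) ^ c) ^ k * N p k = (((p : ℕ) : ℂ) ^ D) ^ k) (L : ℂ → ℂ) :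
    IsL S N i L ↔ IsL S N' (i + 2 * c) fun s => (L (s - c))⁻¹ := by
  refine ⟨isL_transfer S hi hN, fun h => ?_⟩
  have hi' : i + 2 * c + 2 * (-c) ≠ 2 * (D - c) := by
    intro h1
    apply hi
    linarith
  have h2 := isL_transfer (N := N') (N' := N) (c := -c) (D := D - c) S hi'
    (fun p k hk => rel_symm p.2 c D k (hN p k hk)) h
  have h3 : i + 2 * c + 2 * (-c) = i := by ring
  rw [h3] at h2
  convert h2 using 2 with s
  push_cast
  rw [inv_inv, sub_neg_eq_add, add_sub_cancel_right]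

/-- Meromorphic continuation. -/
theorem mero_iff (S : Set Nat.Primes) {N N' : Nat.Primes → ℕ → ℂ} {c D i : ℤ}
    (hi : i + 2 * c ≠ 2 * D)
    (hN : ∀ (p : Nat.Primes) (k : ℕ), 1 ≤ k →
      N' p k + (((p : ℕ) : ℂ) ^ c) ^ k * N p k = (((p : ℕ) : ℂ) ^ D) ^ k) :
    (∃ F : ℂ → ℂ, MeromorphicOn F Set.univ ∧ IsL S N i F) ↔
      ∃ F : ℂ → ℂ, MeromorphicOn F Set.univ ∧ IsL S N' (i + 2 * c) F := by
  have hcomp : ∀ (F : ℂ → ℂ) (t : ℂ), MeromorphicOn F Set.univ →
      MeromorphicOn (fun s => (F (s + t))⁻¹) Set.univ := by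
    intro F t hF s _
    have h1 : MeromorphicAt (fun s => F (s + t)) s :=
      (hF (s + t) (Set.mem_univ _)).comp_analyticAt (f := F) (g := fun s => s + t)
        (analyticAt_id.add analyticAt_const)
    exact h1.inv
  constructor
  · rintro ⟨F, hF, h⟩
    refine ⟨_, hcomp F (-c) hF, ?_⟩
    exact (isL_iff S hi hN F).mp h
  · rintro ⟨F, hF, h⟩
    refine ⟨_, hcomp F c hF, ?_⟩
    rw [isL_iff S hi hN]
    convert h using 2 with s
    rw [inv_inv, sub_add_cancel]

/-- Holomorphic continuation. -/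
theorem entire_iff (S : Set Nat.Primes) {N N' : Nat.Primes → ℕ → ℂ} {c D i : ℤ}
    (hi : i + 2 * c ≠ 2 * D)
    (hN : ∀ (p : Nat.Primes) (k : ℕ), 1 ≤ k →
      N' p k + (((p : ℕ) : ℂ) ^ c) ^ k * N p k = (((p : ℕ) : ℂ) ^ D) ^ k) :
    (∃ F : ℂ → ℂ, Differentiable ℂ F ∧ IsL S N i F) ↔
      ∃ F : ℂ → ℂ, Differentiable ℂ F ∧ IsL S N' (i + 2 * c) fun s => (F s)⁻¹ := by
  constructor
  · rintro ⟨F, hF, h⟩
    exact ⟨fun s => F (s - c), hF.comp (differentiable_id.sub_const _), (isL_iff S hi hN F).mp h⟩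
  · rintro ⟨F, hF, h⟩
    refine ⟨fun s => F (s + c), hF.comp (differentiable_id.add_const _), ?_⟩
    rw [isL_iff S hi hN]
    convert h using 2 with s
    rw [sub_add_cancel]

/-! ### Closure properties of the meromorphic continuation -/

/-- All L-functions of `N`, of all weights `i`, have a meromorphic continuation to `ℂ`. -/
def AllContinue (N : Nat.Primes → ℕ → ℂ) : Prop :=
  ∀ (S : Set Nat.Primes) (i : ℤ), S.Finite → ∃ F : ℂ → ℂ, MeromorphicOn F Set.univ ∧ IsL S N i F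

section Closure

lemma eulerFactor_of_subset (μ : ℂ →₀ ℤ) (p : ℕ) (i : ℤ) (s : ℂ) {T : Finset ℂ}
    (hT : μ.support ⊆ T) : eulerFactor μ p i s =
      ∏ α ∈ T with ‖α‖ ^ 2 = (p : ℝ) ^ i, (1 - α * (p : ℂ) ^ (-s)) ^ (-(i.negOnePow : ℤ) * μ α) := by
  unfold eulerFactor
  apply prod_subset
  · exact filter_subset_filter _ hT
  · intro α hα hα'
    rw [mem_filter] at hα hα'
    have h : μ α = 0 := by
      rw [← Finsupp.notMem_support_iff]
      exact fun h => hα' ⟨h, hα.2⟩
    rw [h, mul_zero, zpow_zero]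

lemma one_sub_ne {p : ℕ} (hp : p.Prime) {i : ℤ} {α s : ℂ} (hα : ‖α‖ ^ 2 = (p : ℝ) ^ i)
    (hs : (i : ℝ) / 2 < s.re) : 1 - α * (p : ℂ) ^ (-s) ≠ 0 := by
  have hp1 : (1 : ℝ) < p := by exact_mod_cast hp.one_lt
  have hp0 : (0 : ℝ) < p := by linarith
  intro h
  have h1 : α * (p : ℂ) ^ (-s) = 1 := (sub_eq_zero.mp h).symm
  have h2 : ‖α * (p : ℂ) ^ (-s)‖ ^ 2 = 1 := by rw [h1, norm_one, one_pow]
  rw [norm_mul, mul_pow, hα, Complex.norm_natCast_cpow_of_pos hp.pos, ← Real.rpow_natCast,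
    ← Real.rpow_mul hp0.le, ← Real.rpow_intCast, ← Real.rpow_add hp0] at h2
  have h3 : (i : ℝ) + (-s).re * ((2 : ℕ) : ℝ) < 0 := by
    rw [Complex.neg_re]
    push_cast
    linarith
  exact (Real.rpow_lt_one_of_one_lt_of_neg hp1 h3).ne h2

lemma isFrob_add {p : ℕ} {N N' : ℕ → ℂ} {μ ν : ℂ →₀ ℤ} (h : IsFrob p N μ) (h' : IsFrob p N' ν) :
    IsFrob p (fun k => N k + N' k) (μ + ν) := by
  classical
  constructor
  · intro α hα
    rcases mem_union.mp (Finsupp.support_add hα) with h1 | h1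
    · exact h.1 α h1
    · exact h'.1 α h1
  · intro k hk
    rw [Finsupp.sum_add_index' (by simp) (fun α b₁ b₂ => by push_cast; ring), ← h.2 k hk,
      ← h'.2 k hk]

lemma isFrob_neg {p : ℕ} {N : ℕ → ℂ} {μ : ℂ →₀ ℤ} (h : IsFrob p N μ) :
    IsFrob p (fun k => - N k) (-μ) := by
  constructor
  · intro α hα
    rw [Finsupp.support_neg] at hα
    exact h.1 α hα
  · intro k hk
    change - N k = _
    rw [Finsupp.sum_neg_index (by simp), h.2 k hk, ← Finsupp.sum_neg]
    apply Finsupp.sum_congr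
    intro α _
    push_cast
    ring

lemma eulerFactor_add {p : ℕ} (hp : p.Prime) (μ ν : ℂ →₀ ℤ) {i : ℤ} {s : ℂ}
    (hs : (i : ℝ) / 2 < s.re) :
    eulerFactor (μ + ν) p i s = eulerFactor μ p i s * eulerFactor ν p i s := by
  classical
  rw [eulerFactor_of_subset (μ + ν) p i s (T := μ.support ∪ ν.support) Finsupp.support_add,
    eulerFactor_of_subset μ p i s (T := μ.support ∪ ν.support) subset_union_left,
    eulerFactor_of_subset ν p i s (T := μ.support ∪ ν.support) subset_union_right,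
    ← prod_mul_distrib]
  apply prod_congr rfl
  intro α hα
  rw [mem_filter] at hα
  rw [← zpow_add₀ (one_sub_ne hp hα.2 hs), Finsupp.add_apply, mul_add]

lemma eulerFactor_neg (p : ℕ) (μ : ℂ →₀ ℤ) (i : ℤ) (s : ℂ) :
    eulerFactor (-μ) p i s = (eulerFactor μ p i s)⁻¹ := by
  unfold eulerFactor
  rw [← prod_inv_distrib, Finsupp.support_neg]
  apply prod_congr rfl
  intro α _
  rw [Finsupp.neg_apply, ← zpow_neg, mul_neg]

variable {N N' : Nat.Primes → ℕ → ℂ}

lemma AllContinue.add (h : AllContinue N) (h' : AllContinue N') :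
    AllContinue fun p k => N p k + N' p k := by
  intro S i hS
  obtain ⟨F, hF, μ, hμ, σ, hσ⟩ := h S i hS
  obtain ⟨G, hG, ν, hν, τ, hτ⟩ := h' S i hS
  refine ⟨fun s => F s * G s, hF.mul hG, fun p => μ p + ν p,
    fun p hp => isFrob_add (hμ p hp) (hν p hp), max (max σ τ) (i / 2), fun s hs => ?_⟩
  obtain ⟨h1, h2⟩ := hσ s ((le_max_left _ _).trans_lt ((le_max_left _ _).trans_lt hs))
  obtain ⟨h3, h4⟩ := hτ s ((le_max_right _ _).trans_lt ((le_max_left _ _).trans_lt hs))
  refine ⟨mul_ne_zero h1 h3, (h2.mul h4).congr_fun fun p => ?_⟩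
  exact eulerFactor_add p.1.2 _ _ ((le_max_right _ _).trans_lt hs)

lemma AllContinue.neg (h : AllContinue N) : AllContinue fun p k => - N p k := by
  intro S i hS
  obtain ⟨F, hF, μ, hμ, σ, hσ⟩ := h S i hS
  refine ⟨fun s => (F s)⁻¹, hF.inv, fun p => - μ p, fun p hp => isFrob_neg (hμ p hp), σ,
    fun s hs => ?_⟩
  obtain ⟨h1, h2⟩ := hσ s hs
  exact ⟨inv_ne_zero h1, (h2.inv₀ h1).congr_fun fun p => eulerFactor_neg _ _ _ _⟩

lemma AllContinue.sub (h : AllContinue N) (h' : AllContinue N') :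
    AllContinue fun p k => N p k - N' p k := by
  have h1 := h.add h'.neg
  simpa only [← sub_eq_add_neg] using h1

lemma AllContinue.zero : AllContinue fun _ _ => 0 := by
  intro S i _
  refine ⟨fun _ => 1, fun s _ => MeromorphicAt.const 1 s, fun _ => 0, fun p _ => ⟨by simp, by simp⟩, 0,
    fun s _ => ⟨one_ne_zero, ?_⟩⟩
  have h : (fun p : {p : Nat.Primes // p ∉ S} => eulerFactor (0 : ℂ →₀ ℤ) p i s) = fun _ => 1 := by
    funext p
    simp [eulerFactor]
  rw [h]
  exact hasProd_one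

lemma AllContinue.sum {ι : Type} (T : Finset ι) {N : ι → Nat.Primes → ℕ → ℂ}
    (h : ∀ t ∈ T, AllContinue (N t)) : AllContinue fun p k => ∑ t ∈ T, N t p k := by
  classical
  induction T using Finset.induction_on with
  | empty => simpa using AllContinue.zero
  | insert t T ht ih =>
    have h1 := (h t (mem_insert_self _ _)).add (ih fun u hu => h u (mem_insert_of_mem hu))
    simpa only [sum_insert ht] using h1

/-- The L-functions of Dirichlet characters are meromorphic. -/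
lemma meromorphicAt_LFunction {E : ℕ} [NeZero E] (χ : DirichletCharacter ℂ E) (s : ℂ) :
    MeromorphicAt (DirichletCharacter.LFunction χ) s := by
  have hd : DifferentiableOn ℂ (DirichletCharacter.LFunction χ) {1}ᶜ := fun t ht =>
    (DirichletCharacter.differentiableAt_LFunction χ t (Or.inl ht)).differentiableWithinAt
  by_cases h1 : s = 1
  · subst h1
    by_cases hχ : χ = 1
    · subst hχ
      have h2 : MeromorphicAt (fun s : ℂ => (s - 1) *
          DirichletCharacter.LFunction (1 : DirichletCharacter ℂ E) s) 1 := by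
        have h4 := (Complex.analyticAt_of_differentiable_on_punctured_nhds_of_continuousAt
          (f := Function.update (fun s : ℂ => (s - 1) *
            DirichletCharacter.LFunction (1 : DirichletCharacter ℂ E) s) 1
              (∏ p ∈ E.primeFactors, (1 - (p : ℂ)⁻¹))) (c := 1) ?_ ?_)
        · refine h4.meromorphicAt.congr ?_
          filter_upwards [self_mem_nhdsWithin] with t ht
          exact Function.update_of_ne ht _ _
        · filter_upwards [self_mem_nhdsWithin] with t ht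
          have h3 : DifferentiableAt ℂ (fun s : ℂ => (s - 1) *
              DirichletCharacter.LFunction (1 : DirichletCharacter ℂ E) s) t :=
            (differentiableAt_id.sub_const _).mul
              (DirichletCharacter.differentiableAt_LFunction _ t (Or.inl ht))
          refine h3.congr_of_eventuallyEq ?_
          filter_upwards [isOpen_compl_singleton.mem_nhds ht] with u hu
          exact Function.update_of_ne hu _ _
        · rw [continuousAt_update_same]
          exact DirichletCharacter.LFunctionTrivChar_residue_one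
      have h5 : MeromorphicAt (fun s : ℂ => (s - 1)⁻¹ * ((s - 1) *
          DirichletCharacter.LFunction (1 : DirichletCharacter ℂ E) s)) 1 :=
        ((MeromorphicAt.id 1).sub (MeromorphicAt.const 1 1)).inv.mul h2
      refine h5.congr ?_
      filter_upwards [self_mem_nhdsWithin] with t ht
      rw [← mul_assoc, inv_mul_cancel₀ (sub_ne_zero.mpr ht), one_mul]
    · exact ((DirichletCharacter.differentiable_LFunction hχ).analyticAt 1).meromorphicAt
  · exact (hd.analyticAt (isOpen_compl_singleton.mem_nhds h1)).meromorphicAt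

/-- The eigenvalue of Frobenius for `(p ^ D χ(p)) ^ k`. -/
noncomputable def charMu (D : ℕ) {E : ℕ} (χ : DirichletCharacter ℂ E) (p : ℕ) : ℂ →₀ ℤ :=
  if χ p = 0 then 0 else Finsupp.single ((p : ℂ) ^ D * χ p) 1

lemma norm_char {E : ℕ} (χ : DirichletCharacter ℂ E) (p : ℕ) (h : χ p ≠ 0) : ‖χ p‖ = 1 := by
  have hu : IsUnit (p : ZMod E) := by
    by_contra h1
    exact h (χ.map_nonunit h1)
  obtain ⟨u, hu⟩ := hu
  rw [← hu]
  exact χ.unit_norm_eq_one u

lemma norm_sq_char {E : ℕ} (D : ℕ) (χ : DirichletCharacter ℂ E) (p : ℕ) (h : χ p ≠ 0) :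
    ‖(p : ℂ) ^ D * χ p‖ ^ 2 = (p : ℝ) ^ (2 * (D : ℤ)) := by
  rw [norm_mul, norm_char χ p h, mul_one, norm_pow, Complex.norm_natCast, ← pow_mul, mul_comm D 2]
  norm_cast

lemma isFrob_char (D : ℕ) {E : ℕ} (χ : DirichletCharacter ℂ E) (p : ℕ) :
    IsFrob p (fun k => ((p : ℂ) ^ D * χ p) ^ k) (charMu D χ p) := by
  unfold charMu
  split_ifs with h
  · refine ⟨by simp, fun k hk => ?_⟩
    change ((p : ℂ) ^ D * χ p) ^ k = _
    rw [h, mul_zero, zero_pow (Nat.one_le_iff_ne_zero.mp hk), Finsupp.sum_zero_index]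
  · constructor
    · intro α hα
      have h1 := Finsupp.support_single_subset hα
      rw [mem_singleton] at h1
      subst h1
      exact ⟨_, norm_sq_char D χ p h⟩
    · intro k _
      rw [Finsupp.sum_single_index (by simp)]
      push_cast
      rw [one_mul]

lemma eulerFactor_char_eq {D E : ℕ} (χ : DirichletCharacter ℂ E) {p : ℕ} (hp : p.Prime) (s : ℂ) :
    eulerFactor (charMu D χ p) p (2 * (D : ℤ)) s = (1 - χ p * (p : ℂ) ^ (-(s - D)))⁻¹ := by
  have hp0 : (p : ℂ) ≠ 0 := Nat.cast_ne_zero.mpr hp.ne_zero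
  unfold charMu
  split_ifs with h
  · rw [h, zero_mul, sub_zero, inv_one]
    simp [eulerFactor]
  · rw [eulerFactor_of_subset _ _ _ _ (Finsupp.support_single_subset), prod_filter,
      prod_singleton, if_pos (norm_sq_char D χ p h), Finsupp.single_eq_same,
      Int.negOnePow_two_mul, Units.val_one, mul_one, zpow_neg_one]
    congr 2
    rw [neg_sub, sub_eq_add_neg, Complex.cpow_add _ _ hp0, Complex.cpow_natCast]
    ring

lemma eulerFactor_char_ne {D E : ℕ} (χ : DirichletCharacter ℂ E) {p : ℕ} (hp : p.Prime) {i : ℤ}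
    (hi : i ≠ 2 * (D : ℤ)) (s : ℂ) : eulerFactor (charMu D χ p) p i s = 1 := by
  have hp1 : (1 : ℝ) < p := by exact_mod_cast hp.one_lt
  unfold charMu
  split_ifs with h
  · simp [eulerFactor]
  · rw [eulerFactor_of_subset _ _ _ _ (Finsupp.support_single_subset), prod_filter,
      prod_singleton, if_neg]
    rw [norm_sq_char D χ p h]
    intro h1
    exact hi (zpow_right_injective₀ (by linarith) hp1.ne' h1).symm

/-- `(p ^ D χ(p)) ^ k` for a Dirichlet character `χ` -/
lemma allContinue_char (D : ℕ) {E : ℕ} [NeZero E] (χ : DirichletCharacter ℂ E) :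
    AllContinue fun p k => (((p : ℕ) : ℂ) ^ D * χ (p : ℕ)) ^ k := by
  classical
  intro S i hS
  by_cases hi : i = 2 * (D : ℤ)
  · subst hi
    let Z : ℂ → ℂ := fun s => DirichletCharacter.LFunction χ (s - D) *
      ∏ p ∈ hS.toFinset, (1 - χ (p : ℕ) * ((p : ℕ) : ℂ) ^ (-(s - D)))
    refine ⟨Z, ?_, fun p => charMu D χ p, fun p _ => isFrob_char D χ p, D + 1, ?_⟩
    · intro s _
      have h1 : MeromorphicAt (fun s : ℂ => DirichletCharacter.LFunction χ (s - D)) s :=
        (meromorphicAt_LFunction χ (s - D)).comp_analyticAt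
          (f := DirichletCharacter.LFunction χ) (g := fun s : ℂ => s - D)
          (analyticAt_id.sub analyticAt_const)
      have h2 : Differentiable ℂ fun s : ℂ =>
          ∏ p ∈ hS.toFinset, (1 - χ (p : ℕ) * ((p : ℕ) : ℂ) ^ (-(s - D))) := by
        apply Differentiable.fun_finsetProd
        intro p _
        refine (differentiable_const _).sub ((differentiable_const _).mul ?_)
        refine Differentiable.const_cpow ((differentiable_id.sub_const _).neg) ?_
        exact Or.inl (Nat.cast_ne_zero.mpr p.2.ne_zero)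
      exact h1.mul (h2.analyticAt s).meromorphicAt
    · intro s hs
      have hs1 : 1 < (s - D : ℂ).re := by
        rw [Complex.sub_re, Complex.natCast_re]
        linarith
      have hne : ∀ p : Nat.Primes, (1 - χ (p : ℕ) * ((p : ℕ) : ℂ) ^ (-(s - D))) ≠ 0 := by
        intro p
        by_cases h : χ (p : ℕ) = 0
        · rw [h, zero_mul, sub_zero]
          exact one_ne_zero
        · have h1 := one_sub_ne p.2 (norm_sq_char D χ p h) (s := s) (by
            push_cast
            linarith)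
          have hp0 : ((p : ℕ) : ℂ) ≠ 0 := Nat.cast_ne_zero.mpr p.2.ne_zero
          have h2 : χ (p : ℕ) * ((p : ℕ) : ℂ) ^ (-(s - (D : ℂ))) =
              ((p : ℕ) : ℂ) ^ D * χ (p : ℕ) * ((p : ℕ) : ℂ) ^ (-s) := by
            rw [neg_sub, sub_eq_add_neg, Complex.cpow_add _ _ hp0, Complex.cpow_natCast]
            ring
          rwa [h2]
      have h0 := DirichletCharacter.LSeries_eulerProduct_hasProd χ hs1
      rw [← DirichletCharacter.LFunction_eq_LSeries χ hs1] at h0
      refine ⟨mul_ne_zero ?_ (prod_ne_zero_iff.mpr fun p _ => hne p), ?_⟩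
      · exact DirichletCharacter.LFunction_ne_zero_of_one_le_re χ (Or.inr fun h => by
          rw [h, Complex.one_re] at hs1
          exact lt_irrefl _ hs1) hs1.le
      have h2 : HasProd (fun p : Nat.Primes => if p ∈ hS.toFinset then
          (1 - χ (p : ℕ) * ((p : ℕ) : ℂ) ^ (-(s - D))) else 1)
          (∏ p ∈ hS.toFinset, (1 - χ (p : ℕ) * ((p : ℕ) : ℂ) ^ (-(s - D)))) := by
        have h3 := hasProd_prod_of_ne_finset_one (s := hS.toFinset) (f := fun p : Nat.Primes =>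
          if p ∈ hS.toFinset then (1 - χ (p : ℕ) * ((p : ℕ) : ℂ) ^ (-(s - D))) else 1)
          (L := SummationFilter.unconditional _) fun p hp => if_neg hp
        rwa [prod_congr rfl fun p hp => if_pos hp] at h3
      have h4 := h0.mul h2
      have h5 : (fun p : Nat.Primes => (1 - χ (p : ℕ) * ((p : ℕ) : ℂ) ^ (-(s - D)))⁻¹ *
          if p ∈ hS.toFinset then (1 - χ (p : ℕ) * ((p : ℕ) : ℂ) ^ (-(s - D))) else 1) =
          ({p : Nat.Primes | p ∉ S}).mulIndicator
            fun p => eulerFactor (charMu D χ p) p (2 * (D : ℤ)) s := by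
        funext p
        by_cases hp : p ∈ S
        · rw [if_pos (hS.mem_toFinset.mpr hp), Set.mulIndicator_of_notMem (show p ∉
            {p : Nat.Primes | p ∉ S} from not_not_intro hp), inv_mul_cancel₀ (hne p)]
        · rw [if_neg (fun h => hp (hS.mem_toFinset.mp h)), Set.mulIndicator_of_mem (show p ∈
            {p : Nat.Primes | p ∉ S} from hp), mul_one, eulerFactor_char_eq χ p.2]
      rw [h5] at h4
      exact hasProd_subtype_iff_mulIndicator.mpr h4
  · refine ⟨fun _ => 1, fun s _ => MeromorphicAt.const 1 s, fun p => charMu D χ p,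
      fun p _ => isFrob_char D χ p, 0, fun s _ => ⟨one_ne_zero, ?_⟩⟩
    have h : (fun p : {p : Nat.Primes // p ∉ S} => eulerFactor (charMu D χ p) p i s) =
        fun _ => 1 := by
      funext p
      exact eulerFactor_char_ne χ p.1.2 hi s
    rw [h]
    exact hasProd_one

/-- `p ^ (D k)` -/
lemma allContinue_pow (D : ℕ) : AllContinue fun p k => ((p : ℕ) : ℂ) ^ (D * k) := by
  have h := allContinue_char D (1 : DirichletCharacter ℂ 1)
  have h1 : ∀ p : Nat.Primes, (1 : DirichletCharacter ℂ 1) ((p : ℕ) : ZMod 1) = 1 := by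
    intro p
    rw [MulChar.one_apply]
    exact isUnit_of_subsingleton _
  simp only [h1, mul_one, ← pow_mul] at h
  exact h

/-- Multiplication by `p ^ (c k)`. -/
lemma AllContinue.scale (c : ℤ) (h : AllContinue N)
    (hN : ∀ (p : Nat.Primes) (k : ℕ), 1 ≤ k → N' p k = (((p : ℕ) : ℂ) ^ c) ^ k * N p k) :
    AllContinue N' := by
  intro S i hS
  obtain ⟨F, hF, hL⟩ := h S (i - 2 * c) hS
  obtain ⟨μ, hμ, σ, hσ⟩ := hL
  have h2 : IsL S N' i fun s => F (s - c) := by
    refine ⟨fun p => (μ p).mapDomain fun α => ((p : ℕ) : ℂ) ^ c * α, fun p hp => ?_, σ + c,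
      fun s hs => ?_⟩
    · constructor
      · intro β hβ
        obtain ⟨α, hα, rfl⟩ := mem_image.mp (Finsupp.mapDomain_support hβ)
        obtain ⟨w, hw⟩ := (hμ p hp).1 α hα
        refine ⟨2 * c + w, ?_⟩
        rw [norm_sq_mul, hw, zpow_add₀ (Nat.cast_ne_zero.mpr p.2.ne_zero)]
      · intro k hk
        rw [hN p k hk, (hμ p hp).2 k hk, Finsupp.sum_mapDomain_index (by simp)
          (fun α b₁ b₂ => by push_cast; ring), Finsupp.mul_sum]
        apply Finsupp.sum_congr
        intro α _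
        rw [mul_pow]
        ring
    · have hs1 : σ < (s - (c : ℂ)).re := by
        rw [Complex.sub_re, Complex.intCast_re]
        linarith
      obtain ⟨h3, h4⟩ := hσ _ hs1
      refine ⟨h3, h4.congr_fun fun p => ?_⟩
      have hp0 : (((p : Nat.Primes) : ℕ) : ℝ) ≠ 0 := Nat.cast_ne_zero.mpr p.1.2.ne_zero
      have hpc : (((p : Nat.Primes) : ℕ) : ℂ) ≠ 0 := Nat.cast_ne_zero.mpr p.1.2.ne_zero
      have hnorm : ∀ α : ℂ, ‖(((p : Nat.Primes) : ℕ) : ℂ) ^ c * α‖ ^ 2 =
          (((p : Nat.Primes) : ℕ) : ℝ) ^ i ↔ ‖α‖ ^ 2 = (((p : Nat.Primes) : ℕ) : ℝ) ^ (i - 2 * c) := by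
        intro α
        have e2 : i = (i - 2 * c) + 2 * c := by ring
        rw [norm_sq_mul]
        nth_rewrite 1 [e2]
        rw [zpow_add₀ hp0, mul_comm]
        exact mul_left_inj' (zpow_ne_zero _ hp0)
      have hneg : ((i - 2 * c).negOnePow : ℤ) = (i.negOnePow : ℤ) := by
        have e3 : i - 2 * c = i + 2 * (-c) := by ring
        rw [e3, Int.negOnePow_add, Int.negOnePow_two_mul, mul_one]
      have hsupp : (Finsupp.mapDomain (fun α => (((p : Nat.Primes) : ℕ) : ℂ) ^ c * α)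
          (μ p)).support = (μ p).support.image fun α => (((p : Nat.Primes) : ℕ) : ℂ) ^ c * α := by
        classical
        exact Finsupp.mapDomain_support_of_injective (mul_inj p.1.2 c) _
      unfold eulerFactor
      rw [hsupp]
      symm
      apply prod_bij (fun α _ => (((p : Nat.Primes) : ℕ) : ℂ) ^ c * α)
      · intro α hα
        rw [mem_filter] at hα ⊢
        exact ⟨mem_image_of_mem _ hα.1, (hnorm α).mpr hα.2⟩
      · intro α _ β _ h
        exact mul_inj p.1.2 c h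
      · intro β hβ
        rw [mem_filter] at hβ
        obtain ⟨α, hα, rfl⟩ := mem_image.mp hβ.1
        exact ⟨α, mem_filter.mpr ⟨hα, (hnorm α).mp hβ.2⟩, rfl⟩
      · intro α _
        have h5 : ((μ p).mapDomain fun α => (((p : Nat.Primes) : ℕ) : ℂ) ^ c * α)
            ((((p : Nat.Primes) : ℕ) : ℂ) ^ c * α) = μ p α :=
          Finsupp.mapDomain_apply (mul_inj p.1.2 c) _ α
        have h6 : (((p : Nat.Primes) : ℕ) : ℂ) ^ (-(s - (c : ℂ))) =
            (((p : Nat.Primes) : ℕ) : ℂ) ^ c * (((p : Nat.Primes) : ℕ) : ℂ) ^ (-s) := by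
          rw [neg_sub, sub_eq_add_neg, Complex.cpow_add _ _ hpc, Complex.cpow_intCast]
        rw [h5, h6, hneg]
        congr 1
        ring
  refine ⟨fun s => F (s - c), ?_, h2⟩
  intro s _
  exact (hF (s - c) (Set.mem_univ _)).comp_analyticAt (f := F) (g := fun s : ℂ => s - c)
    (analyticAt_id.sub analyticAt_const)

lemma eulerFactor_meromorphic (μ : ℂ →₀ ℤ) {p : ℕ} (hp : p.Prime) (i : ℤ) (s : ℂ) :
    MeromorphicAt (eulerFactor μ p i) s := by
  unfold eulerFactor
  apply MeromorphicAt.fun_prod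
  intro α _
  refine MeromorphicAt.zpow ?_ _
  have h : Differentiable ℂ fun s : ℂ => 1 - α * (p : ℂ) ^ (-s) := by
    refine (differentiable_const _).sub ((differentiable_const _).mul ?_)
    refine Differentiable.const_cpow differentiable_id.neg ?_
    exact Or.inl (Nat.cast_ne_zero.mpr hp.ne_zero)
  exact (h.analyticAt s).meromorphicAt

lemma eulerFactor_ne_zero (μ : ℂ →₀ ℤ) {p : ℕ} (hp : p.Prime) {i : ℤ} {s : ℂ}
    (hs : (i : ℝ) / 2 < s.re) : eulerFactor μ p i s ≠ 0 := by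
  unfold eulerFactor
  rw [prod_ne_zero_iff]
  intro α hα
  rw [mem_filter] at hα
  exact zpow_ne_zero _ (one_sub_ne hp hα.2 hs)

/-- Finitely many primes do not matter. -/
lemma AllContinue.piecewise (hA : AllContinue N) {T : Set Nat.Primes} (hT : T.Finite)
    (hB : ∀ p ∈ T, ∃ μ, IsFrob p (N' p) μ) (hN : ∀ p, p ∉ T → ∀ k, 1 ≤ k → N' p k = N p k) :
    AllContinue N' := by
  classical
  intro S i hS
  obtain ⟨F, hF, μ, hμ, σ, hσ⟩ := hA S i hS
  choose! ν hν using hB
  let U : Finset {p : Nat.Primes // p ∉ S} := hT.toFinset.subtype fun p => p ∉ S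
  have hU : ∀ p : {p : Nat.Primes // p ∉ S}, p ∈ U ↔ (p : Nat.Primes) ∈ T := by
    intro p
    simp [U]
  refine ⟨fun s => F s * ∏ p ∈ U, (eulerFactor (ν p) p i s / eulerFactor (μ p) p i s), ?_,
    fun p => if p ∈ T then ν p else μ p, ?_, max σ (i / 2), ?_⟩
  · intro s _
    refine (hF s (Set.mem_univ _)).mul ?_
    apply MeromorphicAt.fun_prod
    intro p _
    exact (eulerFactor_meromorphic _ p.1.2 i s).div (eulerFactor_meromorphic _ p.1.2 i s)
  · intro p hp
    by_cases h : p ∈ T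
    · simp only [h, if_true]
      exact hν p h
    · simp only [h, if_false]
      refine ⟨(hμ p hp).1, fun k hk => ?_⟩
      rw [hN p h k hk]
      exact (hμ p hp).2 k hk
  · intro s hs
    obtain ⟨h1, h2⟩ := hσ s ((le_max_left _ _).trans_lt hs)
    have hi : (i : ℝ) / 2 < s.re := (le_max_right _ _).trans_lt hs
    have hne : ∀ p : {p : Nat.Primes // p ∉ S},
        eulerFactor (ν p) p i s / eulerFactor (μ p) p i s ≠ 0 := fun p =>
      div_ne_zero (eulerFactor_ne_zero _ p.1.2 hi) (eulerFactor_ne_zero _ p.1.2 hi)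
    refine ⟨mul_ne_zero h1 (prod_ne_zero_iff.mpr fun p _ => hne p), ?_⟩
    have h3 := hasProd_prod_of_ne_finset_one (s := U)
      (f := fun p : {p : Nat.Primes // p ∉ S} =>
        if p ∈ U then eulerFactor (ν p) p i s / eulerFactor (μ p) p i s else 1)
      (L := SummationFilter.unconditional _) fun p hp => if_neg hp
    rw [prod_congr rfl fun p hp => if_pos hp] at h3
    refine (h2.mul h3).congr_fun fun p => ?_
    by_cases h : (p : Nat.Primes) ∈ T
    · have e1 : (if (p : Nat.Primes) ∈ T then ν p else μ p) = ν p := if_pos h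
      change eulerFactor (if (p : Nat.Primes) ∈ T then ν p else μ p) p i s = _
      rw [e1, if_pos ((hU p).mpr h), mul_div_cancel₀ _ (eulerFactor_ne_zero _ p.1.2 hi)]
    · have e1 : (if (p : Nat.Primes) ∈ T then ν p else μ p) = μ p := if_neg h
      change eulerFactor (if (p : Nat.Primes) ∈ T then ν p else μ p) p i s = _
      rw [e1, if_neg (fun h' => h ((hU p).mp h')), mul_one]

end Closure

end Pool.Agent.KS6_3.B2
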