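import Pool.Agent.KS6_3.B2.Binom

/-!
# Systems of equations with at most two monomials
-/

set_option autoImplicit false

namespace Pool.Agent.KS6_3.B2

open Finset

section Supp

variable {V : Type} {κ : Type} [Field κ]

/-- The vector with the nonzero coordinates `x`. -/
noncomputable def ext (T : Finset V) (x : T → κˣ) (u : V) : κ := by
  classical
  exact if h : u ∈ T then (x ⟨u, h⟩ : κ) else 0

lemma ext_mem {T : Finset V} (x : T → κˣ) {u : V} (h : u ∈ T) : ext T x u = x ⟨u, h⟩ :=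
  dif_pos h

lemma ext_not_mem {T : Finset V} (x : T → κˣ) {u : V} (h : u ∉ T) : ext T x u = 0 :=
  dif_neg h

lemma ext_ne_zero {T : Finset V} (x : T → κˣ) (u : V) : ext T x u ≠ 0 ↔ u ∈ T := by
  by_cases h : u ∈ T
  · rw [ext_mem x h]
    exact ⟨fun _ => h, fun _ => (x ⟨u, h⟩).ne_zero⟩
  · rw [ext_not_mem x h]
    exact ⟨fun h1 => absurd rfl h1, fun h1 => absurd h1 h⟩

variable [Fintype V]

/-- The solutions are divided according to their supports. -/
lemma bij_supp (C : (V → κ) → Prop) : Function.Bijective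
    (fun w : Σ T : Finset V, {x : T → κˣ // C (ext T x)} =>
      (⟨ext w.1 w.2.1, w.2.2⟩ : {v : V → κ // C v})) := by
  classical
  constructor
  · rintro ⟨T, x, hx⟩ ⟨T', x', hx'⟩ h
    have h1 : ext T x = ext T' x' := congrArg Subtype.val h
    have hT : T = T' := by
      ext u
      rw [← ext_ne_zero x u, ← ext_ne_zero x' u, h1]
    subst hT
    have h2 : x = x' := by
      funext u
      apply Units.ext
      rw [← ext_mem x u.2, ← ext_mem x' u.2, h1]
    subst h2
    rfl
  · rintro ⟨v, hv⟩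
    let T : Finset V := univ.filter fun u => v u ≠ 0
    let x : T → κˣ := fun u => Units.mk0 (v u) (mem_filter.mp u.2).2
    have h : ext T x = v := by
      funext u
      by_cases hu : u ∈ T
      · rw [ext_mem x hu]
        rfl
      · rw [ext_not_mem x hu]
        by_contra h1
        exact hu (mem_filter.mpr ⟨mem_univ _, fun h2 => h1 h2.symm⟩)
    refine ⟨⟨T, x, by rw [h]; exact hv⟩, Subtype.ext h⟩

lemma prod_ext {T : Finset V} (x : T → κˣ) (e : V → ℕ) (h : ∀ u, e u ≠ 0 → u ∈ T) :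
    ∏ u, ext T x u ^ e u = ((∏ u : T, x u ^ e u : κˣ) : κ) := by
  classical
  have h1 : ∏ u, ext T x u ^ e u = ∏ u ∈ T, ext T x u ^ e u := by
    symm
    apply prod_subset (subset_univ _)
    intro u _ hu
    have h2 : e u = 0 := by
      by_contra h3
      exact hu (h u h3)
    rw [h2, pow_zero]
  rw [h1, ← prod_coe_sort]
  push_cast
  apply prod_congr rfl
  intro u _
  rw [ext_mem x u.2]

lemma prod_ext_zero {T : Finset V} (x : T → κˣ) (e : V → ℕ) (h : ¬ ∀ u, e u ≠ 0 → u ∈ T) :
    ∏ u, ext T x u ^ e u = 0 := by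
  push Not at h
  obtain ⟨u, hu, hT⟩ := h
  apply prod_eq_zero (mem_univ u)
  rw [ext_not_mem x hT, zero_pow hu]

end Supp

lemma qcount_congr {Φ Ψ : ∀ (κ : Type) [Field κ], Type}
    (h : ∀ (κ : Type) [Field κ] [Finite κ], Nat.card (Φ κ) = Nat.card (Ψ κ)) (hΨ : QCount Ψ) :
    QCount Φ := by
  obtain ⟨g, hg, g₂, hg₂, hc⟩ := hΨ
  refine ⟨g, hg, g₂, hg₂, fun κ _ _ => ?_⟩
  rw [h κ]
  exact hc κ

lemma qcount_sigma {ι : Type} [Fintype ι] {Φ : ι → ∀ (κ : Type) [Field κ], Type}
    (hΦ : ∀ i (κ : Type) [Field κ] [Finite κ], Finite (Φ i κ)) (h : ∀ i, QCount (Φ i)) :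
    QCount fun κ _ => Σ i, Φ i κ := by
  choose g hg g₂ hg₂ hc using h
  refine ⟨fun q => ∑ i, g i q, qc_sum _ fun i _ => hg i, fun q => ∑ i, g₂ i q,
    qc_sum _ fun i _ => hg₂ i, fun κ _ _ => ?_⟩
  have h1 : ∀ i, Finite (Φ i κ) := fun i => hΦ i κ
  rw [Nat.card_sigma]
  push_cast
  exact ⟨fun h2 => sum_congr rfl fun i _ => (hc i κ).1 h2,
    fun h2 => sum_congr rfl fun i _ => (hc i κ).2 h2⟩

lemma qcount_empty {Φ : ∀ (κ : Type) [Field κ], Type}
    (h : ∀ (κ : Type) [Field κ] [Finite κ], IsEmpty (Φ κ)) : QCount Φ := by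
  refine ⟨_, qc_zero, _, qc_zero, fun κ _ _ => ?_⟩
  have := h κ
  rw [Nat.card_of_isEmpty, Nat.cast_zero]
  exact ⟨fun _ => rfl, fun _ => rfl⟩

/-- **Systems of equations with at most two monomials.** -/
theorem exists_binomial {V Ω J : Type} [Fintype V] (ex : Ω → V → ℕ) (M : J → Finset Ω)
    (hM : ∀ j, (M j).card ≤ 2) :
    QCount fun κ _ => {v : V → κ // ∀ j, ∑ h ∈ M j, ∏ u, v u ^ ex h u = 0} := by
  classical
  have key : ∀ T : Finset V, QCount fun κ _ =>
      {x : T → κˣ // ∀ j, ∑ h ∈ M j, ∏ u, ext T x u ^ ex h u = 0} := by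
    intro T
    let sv : J → Finset Ω := fun j => (M j).filter fun h => ∀ u, ex h u ≠ 0 → u ∈ T
    have hsum : ∀ (κ : Type) [Field κ] (x : T → κˣ) (j : J),
        ∑ h ∈ M j, ∏ u, ext T x u ^ ex h u =
          ∑ h ∈ sv j, ((∏ u : T, x u ^ ex h u : κˣ) : κ) := by
      intro κ _ x j
      rw [sum_filter]
      apply sum_congr rfl
      intro h _
      split_ifs with h1
      · exact prod_ext x (ex h) h1
      · exact prod_ext_zero x (ex h) h1
    by_cases h1 : ∃ j, (sv j).card = 1
    · obtain ⟨j, hj⟩ := h1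
      obtain ⟨h, hh⟩ := card_eq_one.mp hj
      apply qcount_empty
      intro κ _ _
      constructor
      rintro ⟨x, hx⟩
      have h2 := hx j
      rw [hsum, hh, sum_singleton] at h2
      exact Units.ne_zero _ h2
    · have hcard : ∀ j, (sv j).card ≠ 2 → sv j = ∅ := by
        intro j hj
        have h2 : (sv j).card ≤ 2 := (card_filter_le _ _).trans (hM j)
        have h3 : (sv j).card ≠ 1 := fun h => h1 ⟨j, h⟩
        exact card_eq_zero.mp (by omega)
      have hpair : ∀ j : {j // (sv j).card = 2}, ∃ h h', h ≠ h' ∧ sv j = {h, h'} := by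
        rintro ⟨j, hj⟩
        exact card_eq_two.mp hj
      choose a a' hne ha using hpair
      let P : {j // (sv j).card = 2} → T → ℤ := fun j u => ex (a j) u - ex (a' j) u
      refine qcount_congr (fun κ _ _ => ?_) (exists_neg P)
      apply Nat.card_congr
      apply Equiv.subtypeEquivRight
      intro x
      have hj : ∀ j : {j // (sv j).card = 2},
          (∑ h ∈ M j, ∏ u, ext T x u ^ ex h u = 0) ↔ ∏ u, x u ^ P j u = -1 := by
        intro j
        have h3 : ∏ u, x u ^ P j u = (∏ u : T, x u ^ ex (a j) u) * (∏ u : T, x u ^ ex (a' j) u)⁻¹ := by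
          simp only [P, zpow_sub, zpow_natCast, prod_mul_distrib, prod_inv_distrib]
        rw [hsum, ha, sum_pair (hne j), h3, mul_inv_eq_iff_eq_mul, neg_mul, one_mul,
          ← Units.val_inj, Units.val_neg, eq_neg_iff_add_eq_zero]
      constructor
      · intro h j
        exact (hj j).mp (h j)
      · intro h j
        by_cases h4 : (sv j).card = 2
        · exact (hj ⟨j, h4⟩).mpr (h ⟨j, h4⟩)
        · rw [hsum, hcard j h4, sum_empty]
  refine qcount_congr (fun κ _ _ => ?_) (qcount_sigma (fun T κ _ _ => inferInstance) key)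
  exact (Nat.card_congr (Equiv.ofBijective _ (bij_supp fun v : V → κ =>
    ∀ j, ∑ h ∈ M j, ∏ u, v u ^ ex h u = 0))).symm

end Pool.Agent.KS6_3.B2
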