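import Pool.Agent.KS6_3.B2.Strata
import Pool.Agent.KS6_3.B2.Supp

/-!
# L-functions of projective schemes and of smooth affine cubic hypersurfaces: the proof
-/

set_option autoImplicit false

namespace Pool.Agent.KS6_3.B2

open Finset MvPolynomial

/-- The numbers of the points of `X` over the fields with `p ^ k` elements. -/
noncomputable def count (X : ∀ (κ : Type) [Field κ], Type) (p : Nat.Primes) (k : ℕ) : ℂ :=
  haveI : Fact (p : ℕ).Prime := ⟨p.2⟩
  (Nat.card (X (GaloisField p k)) : ℂ)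

/-- For every finite field with `q` elements the number of points of `Y` is `q ^ D - q ^ c #X`. At
every prime `p` the eigenvalues of Frobenius of `Y` are `p ^ D` and, with the opposite
multiplicities, the eigenvalues of Frobenius of `X` multiplied by `p ^ c`. The L-function of `X` of
weight `i ≤ w` is, shifted by `c`, the inverse of the L-function of `Y` of weight `i + 2 c`; in
particular one has a meromorphic continuation if and only if the other one has, and the first one is
entire if and only if the inverse of the second one is. -/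
def Corresponds (c D w : ℕ) (X Y : ∀ (κ : Type) [Field κ], Type) : Prop :=
  (∀ (κ : Type) [Field κ] [Finite κ],
    Nat.card (Y κ) + Nat.card κ ^ c * Nat.card (X κ) = Nat.card κ ^ D) ∧
  (∀ (p : Nat.Primes) (μ : ℂ →₀ ℤ),
    IsFrob p (count X p) μ ↔ IsFrob p (count Y p) (shift p c D μ)) ∧
  ∀ (S : Set Nat.Primes) (i : ℤ), i ≤ w →
    (∀ L : ℂ → ℂ, IsL S (count X) i L ↔ IsL S (count Y) (i + 2 * c) fun s => (L (s - c))⁻¹) ∧
    ((∃ F : ℂ → ℂ, MeromorphicOn F Set.univ ∧ IsL S (count X) i F) ↔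
      ∃ F : ℂ → ℂ, MeromorphicOn F Set.univ ∧ IsL S (count Y) (i + 2 * c) F) ∧
    ((∃ F : ℂ → ℂ, Differentiable ℂ F ∧ IsL S (count X) i F) ↔
      ∃ F : ℂ → ℂ, Differentiable ℂ F ∧ IsL S (count Y) (i + 2 * c) fun s => (F s)⁻¹)

/-- For every `j` there are at most three monomials with the variable `z_j`. -/
def Sparse {a b m : ℕ} (H : Finset (Option (Fin a) × Option (Fin b) × Fin m)) : Prop :=
  ∀ j, (H.filter fun h => h.2.2 = j).card ≤ 3

lemma count_rel {c D : ℕ} {X Y : ∀ (κ : Type) [Field κ], Type}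
    (h : ∀ (κ : Type) [Field κ] [Finite κ],
      Nat.card (Y κ) + Nat.card κ ^ c * Nat.card (X κ) = Nat.card κ ^ D)
    (p : Nat.Primes) (k : ℕ) (hk : 1 ≤ k) :
    count Y p k + (((p : ℕ) : ℂ) ^ (c : ℤ)) ^ k * count X p k =
      (((p : ℕ) : ℂ) ^ (D : ℤ)) ^ k := by
  have : Fact (p : ℕ).Prime := ⟨p.2⟩
  have h1 := h (GaloisField p k)
  rw [GaloisField.card _ _ (by omega), ← pow_mul, ← pow_mul] at h1
  have h2 := congrArg (fun t : ℕ => (t : ℂ)) h1
  push_cast at h2
  rw [zpow_natCast, zpow_natCast, ← pow_mul, ← pow_mul, mul_comm c, mul_comm D, ← h2]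
  rfl

lemma corresponds {c D w : ℕ} {X Y : ∀ (κ : Type) [Field κ], Type}
    (h : ∀ (κ : Type) [Field κ] [Finite κ],
      Nat.card (Y κ) + Nat.card κ ^ c * Nat.card (X κ) = Nat.card κ ^ D)
    (hw : w + 2 * c < 2 * D) : Corresponds c D w X Y := by
  refine ⟨h, fun p μ => isFrob_shift_iff p.2 (count_rel h p) μ, fun S i hi => ?_⟩
  have h1 : i + 2 * (c : ℤ) ≠ 2 * (D : ℤ) := by omega
  have h2 := count_rel h
  have h3 := isL_iff S h1 h2
  refine ⟨fun L => ?_, mero_iff S h1 h2, entire_iff S h1 h2⟩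
  have h4 := h3 L
  push_cast at h4
  exact h4

/-- The continuation for the closed subschemes of the affine space gives the one of the cubics. -/
theorem continue_cubic {N : ℕ}
    (h : ∀ G : Finset (MvPolynomial (Fin N) ℤ), AllContinue (count fun κ _ => affPoints G κ))
    {b m : ℕ} (H : Finset (Option (Fin N) × Option (Fin b) × Fin (m + 1))) :
    AllContinue (count fun κ _ => cubicPoints H κ) := by
  have hscale : ∀ (c : ℕ) {M : Nat.Primes → ℕ → ℂ}, AllContinue M →
      AllContinue fun p k => ((p : ℕ) : ℂ) ^ (c * k) * M p k := by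
    intro c M hM
    refine hM.scale c fun p k _ => ?_
    rw [zpow_natCast, pow_mul]
  have h1 : AllContinue fun p k => ((p : ℕ) : ℂ) ^ ((m + N + b) * k) -
      ((p : ℕ) : ℂ) ^ (m * k) * (∑ r ∈ range (b + 1), ((p : ℕ) : ℂ) ^ ((b - r) * k) *
        count (fun κ _ => affPoints (minA H r) κ) p k - ∑ r ∈ range b,
          ((p : ℕ) : ℂ) ^ ((b - (r + 1)) * k) *
            count (fun κ _ => affPoints (minA H (r + 1) ∪ minB H r) κ) p k) :=
    (allContinue_pow _).sub (hscale m ((AllContinue.sum _ fun r _ => hscale _ (h _)).sub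
      (AllContinue.sum _ fun r _ => hscale _ (h _))))
  refine h1.scale 0 fun p k hk => ?_
  rw [zpow_zero, one_pow, one_mul]
  have : Fact (p : ℕ).Prime := ⟨p.2⟩
  have hc := GaloisField.card (p : ℕ) k (by omega)
  have h2 := card_cubicPoints (κ := GaloisField p k) H
  rw [card_strata, hc] at h2
  have h3 := congrArg (fun t : ℤ => (t : ℂ)) h2
  push_cast at h3
  simp only [← pow_mul, mul_comm k] at h3
  exact h3

/-- The continuation for a cubic hypersurface gives the one of the affine scheme. -/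
theorem continue_aff {c D : ℕ} {X Y : ∀ (κ : Type) [Field κ], Type}
    (h : ∀ (κ : Type) [Field κ] [Finite κ],
      Nat.card (Y κ) + Nat.card κ ^ c * Nat.card (X κ) = Nat.card κ ^ D)
    (hY : AllContinue (count Y)) : AllContinue (count X) := by
  have h1 := (allContinue_pow D).sub hY
  refine h1.scale (-(c : ℤ)) fun p k hk => ?_
  have h2 := count_rel h p k hk
  have hp0 : ((p : ℕ) : ℂ) ≠ 0 := Nat.cast_ne_zero.mpr p.2.ne_zero
  rw [zpow_natCast, zpow_natCast, ← pow_mul, ← pow_mul] at h2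
  rw [← h2, add_sub_cancel_left, zpow_neg, zpow_natCast, inv_pow, ← pow_mul,
    inv_mul_cancel_left₀ (pow_ne_zero _ hp0)]

/-- For every `j` there are at most two monomials with the variable `z_j`. -/
def Binomial {a b m : ℕ} (H : Finset (Option (Fin a) × Option (Fin b) × Fin m)) : Prop :=
  ∀ j, (H.filter fun h => h.2.2 = j).card ≤ 2

/-- For the odd primes `p` the numbers `N p k`, `k ≥ 1`, are `∑ ε_t (p ^ D_t χ_t(p)) ^ k` with
integers `ε_t`, natural numbers `D_t` and Dirichlet characters `χ_t`; so the L-functions are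
products of the `L(s - D_t, χ_t) ^ ε_t`, up to finitely many Euler factors. -/
def DirichletType (N : Nat.Primes → ℕ → ℂ) : Prop :=
  ∃ (n : ℕ) (ε : Fin n → ℤ) (D E : Fin n → ℕ) (χ : ∀ t, DirichletCharacter ℂ (E t)),
    (∀ t, E t ≠ 0) ∧ ∀ (p : Nat.Primes) (k : ℕ), (p : ℕ) ≠ 2 → 1 ≤ k →
      N p k = ∑ t, (ε t : ℂ) * (((p : ℕ) : ℂ) ^ D t * χ t (p : ℕ)) ^ k

lemma dirichletType_of_cyc {f N : Nat.Primes → ℕ → ℂ} (hf : f ∈ Cyc)
    (hN : ∀ (p : Nat.Primes) (k : ℕ), (p : ℕ) ≠ 2 → 1 ≤ k → N p k = f p k) : DirichletType N := by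
  have key : ∃ (ι : Type) (_ : Fintype ι) (ε : ι → ℤ) (D E : ι → ℕ)
      (χ : ∀ t, DirichletCharacter ℂ (E t)), (∀ t, E t ≠ 0) ∧ ∀ (p : Nat.Primes) (k : ℕ),
        f p k = ∑ t, (ε t : ℂ) * (((p : ℕ) : ℂ) ^ D t * χ t (p : ℕ)) ^ k := by
    refine AddSubgroup.closure_induction ?_ ?_ ?_ ?_ hf
    · rintro x ⟨D, E, hE, χ, rfl⟩
      refine ⟨Unit, inferInstance, fun _ => 1, fun _ => D, fun _ => E, fun _ => χ, fun _ => hE.out,
        fun p k => ?_⟩
      simp
    · exact ⟨Empty, inferInstance, fun _ => 1, fun _ => 1, fun _ => 1, fun _ => 1,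
        fun _ => one_ne_zero, fun p k => by simp⟩
    · rintro x y _ _ ⟨ι, hι, ε, D, E, χ, hE, hx⟩ ⟨ι', hι', ε', D', E', χ', hE', hy⟩
      refine ⟨ι ⊕ ι', inferInstance, Sum.elim ε ε', Sum.elim D D', Sum.elim E E', fun t =>
        match t with
        | Sum.inl t => χ t
        | Sum.inr t => χ' t, fun t => ?_, fun p k => ?_⟩
      · cases t with
        | inl t => exact hE t
        | inr t => exact hE' t
      · rw [Fintype.sum_sum_type]
        change x p k + y p k = _
        rw [hx, hy]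
        rfl
    · rintro x _ ⟨ι, hι, ε, D, E, χ, hE, hx⟩
      refine ⟨ι, hι, fun t => - ε t, D, E, χ, hE, fun p k => ?_⟩
      change - x p k = _
      rw [hx, ← sum_neg_distrib]
      apply sum_congr rfl
      intro t _
      push_cast
      ring
  obtain ⟨ι, hι, ε, D, E, χ, hE, h⟩ := key
  let e := Fintype.equivFin ι
  refine ⟨Fintype.card ι, fun t => ε (e.symm t), fun t => D (e.symm t), fun t => E (e.symm t),
    fun t => χ (e.symm t), fun t => hE _, fun p k hp hk => ?_⟩
  rw [hN p k hp hk, h]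
  exact (Equiv.sum_comp e.symm fun t => (ε t : ℂ) * (((p : ℕ) : ℂ) ^ D t * χ t (p : ℕ)) ^ k).symm

lemma isFrob_congr {p : ℕ} {N N' : ℕ → ℂ} {μ : ℂ →₀ ℤ} (h : IsFrob p N μ)
    (hN : ∀ k, 1 ≤ k → N' k = N k) : IsFrob p N' μ :=
  ⟨h.1, fun k hk => by rw [hN k hk, h.2 k hk]⟩

lemma qcount_cubic {N b m : ℕ} (H : Finset (Option (Fin N) × Option (Fin b) × Fin (m + 1)))
    (hH : Binomial H) : QCount fun κ _ => cubicPoints H κ := by
  classical
  let ex : Option (Fin N) × Option (Fin b) → Fin N ⊕ Fin b → ℕ := fun t =>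
    Sum.elim (fun i => if t.1 = some i then 1 else 0) fun k => if t.2 = some k then 1 else 0
  let M : Fin (m + 1) → Finset (Option (Fin N) × Option (Fin b)) := fun j =>
    univ.filter fun t => (t.1, t.2, j) ∈ H
  have hM : ∀ j, (M j).card ≤ 2 := by
    intro j
    refine le_trans ?_ (hH j)
    apply card_le_card_of_injOn fun t => (t.1, t.2, j)
    · intro t ht
      rw [mem_coe, mem_filter] at ht ⊢
      exact ⟨ht.2, rfl⟩
    · intro t _ t' _ h
      exact Prod.ext (congrArg (fun w => w.1) h) (congrArg (fun w => w.2.1) h)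
  have hmon : ∀ (κ : Type) [Field κ] (v : Fin N ⊕ Fin b → κ) (t : Option (Fin N) × Option (Fin b)),
      ∏ u, v u ^ ex t u = hat (fun i => v (Sum.inl i)) t.1 * hat (fun k => v (Sum.inr k)) t.2 := by
    intro κ _ v t
    rw [Fintype.prod_sum_type]
    have h1 : ∀ {A : Type} [Fintype A] [DecidableEq A] (x : A → κ) (o : Option A),
        ∏ i, x i ^ (if o = some i then 1 else 0) = hat x o := by
      intro A _ _ x o
      cases o with
      | none => simp [hat]
      | some i =>
        simp only [Option.some.injEq, pow_ite, pow_one, pow_zero]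
        rw [prod_ite_eq univ i x, if_pos (mem_univ _)]
        rfl
    exact congrArg₂ (· * ·) (h1 (fun i => v (Sum.inl i)) t.1) (h1 (fun k => v (Sum.inr k)) t.2)
  obtain ⟨g, hg, g₂, hg₂, hc⟩ := exists_binomial ex M hM
  have hq : ∀ c : ℕ, (fun (p : Nat.Primes) (k : ℕ) => (((p : ℕ) ^ k : ℕ) : ℂ) ^ c) ∈ Cyc := by
    intro c
    refine AddSubgroup.subset_closure ⟨c, 1, inferInstance, 1, ?_⟩
    funext p k
    have h : (1 : DirichletCharacter ℂ 1) ((p : ℕ) : ZMod 1) = 1 := by
      rw [MulChar.one_apply]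
      exact isUnit_of_subsingleton _
    rw [h, mul_one]
    push_cast
    rw [← pow_mul, ← pow_mul, mul_comm]
  refine ⟨fun q => (q : ℂ) ^ (m + N + b) - (q : ℂ) ^ m * g q,
    Cyc.sub_mem (hq _) (cyc_mul (hq m) hg), fun q => (q : ℂ) ^ (m + N + b) - (q : ℂ) ^ m * g₂ q,
    Cyc.sub_mem (hq _) (cyc_mul (hq m) hg₂), fun κ _ _ => ?_⟩
  have h1 := congrArg (fun t : ℤ => (t : ℂ)) (card_cubicPoints (κ := κ) H)
  push_cast at h1
  have h2 : Nat.card {v : (Fin N → κ) × (Fin b → κ) //
        ∀ j, val (univ.filter fun t => (t.1, t.2, j) ∈ H) v.1 v.2 = 0} =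
      Nat.card {v : Fin N ⊕ Fin b → κ // ∀ j, ∑ h ∈ M j, ∏ u, v u ^ ex h u = 0} := by
    apply Nat.card_congr
    refine Equiv.subtypeEquiv (Equiv.sumArrowEquivProdArrow (Fin N) (Fin b) κ).symm ?_
    intro v
    apply forall_congr'
    intro j
    have h3 : ∑ h ∈ M j, ∏ u, ((Equiv.sumArrowEquivProdArrow (Fin N) (Fin b) κ).symm v) u ^ ex h u =
        val (univ.filter fun t => (t.1, t.2, j) ∈ H) v.1 v.2 := sum_congr rfl fun t _ => hmon κ _ t
    rw [h3]
  rw [h2] at h1
  constructor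
  · intro h3
    have h4 := (hc κ).1 h3
    simp only at h4 ⊢
    rw [h1, h4]
  · intro h3
    have h4 := (hc κ).2 h3
    simp only at h4 ⊢
    rw [h1, h4]

/-- **Two monomials.** -/
theorem binomial_continue {N b m : ℕ}
    (H : Finset (Option (Fin N) × Option (Fin b) × Fin (m + 1))) (hH : Binomial H) :
    DirichletType (count fun κ _ => cubicPoints H κ) ∧
      AllContinue (count fun κ _ => cubicPoints H κ) := by
  obtain ⟨g, hg, g₂, hg₂, hc⟩ := qcount_cubic H hH
  have h1 : ∀ (p : Nat.Primes) (k : ℕ), 1 ≤ k →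
      ((p : ℕ) ≠ 2 → count (fun κ _ => cubicPoints H κ) p k = g ((p : ℕ) ^ k)) ∧
      ((p : ℕ) = 2 → count (fun κ _ => cubicPoints H κ) p k = g₂ ((p : ℕ) ^ k)) := by
    intro p k hk
    have : Fact (p : ℕ).Prime := ⟨p.2⟩
    have h2 := hc (GaloisField p k)
    rw [GaloisField.card _ _ (by omega)] at h2
    have h3 : (2 : GaloisField p k) = 0 ↔ (p : ℕ) = 2 := by
      have h4 := CharP.cast_eq_zero_iff (GaloisField p k) p 2
      rw [Nat.cast_ofNat] at h4
      rw [h4]
      exact Nat.prime_dvd_prime_iff_eq p.2 Nat.prime_two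
    exact ⟨fun h => h2.1 fun h' => h (h3.mp h'), fun h => h2.2 (h3.mpr h)⟩
  refine ⟨dirichletType_of_cyc hg fun p k hp hk => (h1 p k hk).1 hp, ?_⟩
  have hT : {p : Nat.Primes | (p : ℕ) = 2}.Finite := by
    apply Set.Subsingleton.finite
    intro p hp q hq
    exact Subtype.ext (Eq.trans hp (Eq.symm hq))
  refine (allContinue_of_cyc hg).piecewise hT ?_ ?_
  · intro p hp
    obtain ⟨F, -, μ, hμ, -⟩ := allContinue_of_cyc hg₂ ∅ 0 Set.finite_empty
    exact ⟨μ p, isFrob_congr (hμ p (Set.notMem_empty _)) fun k hk => (h1 _ k hk).2 hp⟩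
  · intro p hp k hk
    exact (h1 p k hk).1 hp

end Pool.Agent.KS6_3.B2
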