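import Mathlib

/-!
# Ranks of matrices: minors, and the number of the solutions of a system of linear equations
-/

set_option autoImplicit false

namespace Pool.Agent.KS6_3.B2

open Finset Module

variable {κ : Type} [Field κ]

/-- If the rank is at least `r`, there are `r` independent columns. -/
lemma exists_cols {α : Type} [Fintype α] {b : ℕ} (A : Matrix α (Fin b) κ) {r : ℕ}
    (h : r ≤ A.rank) : ∃ g : Fin r → Fin b, LinearIndependent κ (A.submatrix id g).col := by
  obtain ⟨f, hf, -, hli⟩ := Submodule.exists_fun_fin_finrank_span_eq κ (Set.range A.col)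
  have h' : r ≤ finrank κ (Submodule.span κ (Set.range A.col)) := by
    rwa [← Matrix.rank_eq_finrank_span_cols]
  choose g hg using hf
  refine ⟨fun i => g (Fin.castLE h' i), ?_⟩
  have h1 : (A.submatrix id fun i => g (Fin.castLE h' i)).col = f ∘ Fin.castLE h' := by
    funext i
    rw [Function.comp_apply, ← hg]
    rfl
  rw [h1]
  exact hli.comp _ (Fin.castLE_injective h')

/-- The rank is at most `r` if and only if all minors of size `r + 1` vanish. -/
theorem rank_le_iff {a b : ℕ} (A : Matrix (Fin a) (Fin b) κ) (r : ℕ) :
    A.rank ≤ r ↔ ∀ (f : Fin (r + 1) → Fin a) (g : Fin (r + 1) → Fin b),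
      (A.submatrix f g).det = 0 := by
  constructor
  · intro h f g
    by_contra hne
    have h1 : (A.submatrix f g).rank = Fintype.card (Fin (r + 1)) :=
      Matrix.rank_of_isUnit _ ((Matrix.isUnit_iff_isUnit_det _).mpr (isUnit_iff_ne_zero.mpr hne))
    have h2 : (A.submatrix f g).rank ≤ A.rank := Matrix.rank_submatrix_le A f g
    rw [h1, Fintype.card_fin] at h2
    omega
  · intro h
    by_contra hlt
    push Not at hlt
    obtain ⟨g, hg⟩ := exists_cols A (r := r + 1) hlt
    have h1 : ((A.submatrix id g).transpose).row = (A.submatrix id g).col := rfl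
    have h2 : (A.submatrix id g).transpose.rank = r + 1 := by
      have h3 := LinearIndependent.rank_matrix (M := (A.submatrix id g).transpose) hg
      rwa [Fintype.card_fin] at h3
    obtain ⟨f, hf⟩ := exists_cols (A.submatrix id g).transpose (r := r + 1) h2.ge
    have h4 : ((A.submatrix id g).transpose.submatrix id f).col = (A.submatrix f g).row := rfl
    rw [h4, Matrix.linearIndependent_rows_iff_isUnit, Matrix.isUnit_iff_isUnit_det,
      isUnit_iff_ne_zero] at hf
    exact hf (h f g)

/-- The matrix `B` with the additional column `β`. -/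
def aug {R : Type} {m b : ℕ} (B : Matrix (Fin m) (Fin b) R) (β : Fin m → R) :
    Matrix (Fin m) (Fin (b + 1)) R :=
  fun j k => Fin.lastCases (motive := fun _ => R) (β j) (fun k => B j k) k

/-- The rank of a matrix with an additional column. -/
lemma rank_le_aug {m b : ℕ} (B : Matrix (Fin m) (Fin b) κ) (β : Fin m → κ) :
    B.rank ≤ (aug B β).rank := by
  have h : B = (aug B β).submatrix id Fin.castSucc := by
    ext j k
    change B j k = aug B β j k.castSucc
    rw [aug, Fin.lastCases_castSucc]
  calc B.rank = ((aug B β).submatrix id Fin.castSucc).rank := by rw [← h]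
    _ ≤ _ := Matrix.rank_submatrix_le _ _ _

/-- The number of the solutions of a system of linear equations. -/
theorem card_sol [Finite κ] {m b : ℕ} (B : Matrix (Fin m) (Fin b) κ) (β : Fin m → κ) :
    Nat.card {y : Fin b → κ // ∀ j, ∑ k, B j k * y k + β j = 0} =
      if B.rank = (aug B β).rank then Nat.card κ ^ (b - B.rank) else 0 := by
  classical
  have hspan : Submodule.span κ (Set.range (aug B β).col) =
      Submodule.span κ (Set.range B.col) ⊔ Submodule.span κ {β} := by
    rw [← Submodule.span_union]
    congr 1
    ext v
    constructor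
    · rintro ⟨k, rfl⟩
      refine Fin.lastCases ?_ (fun k => ?_) k
      · right
        rw [Set.mem_singleton_iff]
        funext j
        change aug B β j (Fin.last b) = β j
        rw [aug, Fin.lastCases_last]
      · left
        refine ⟨k, ?_⟩
        funext j
        change B j k = aug B β j k.castSucc
        rw [aug, Fin.lastCases_castSucc]
    · rintro (⟨k, rfl⟩ | h)
      · refine ⟨k.castSucc, ?_⟩
        funext j
        change aug B β j k.castSucc = B j k
        rw [aug, Fin.lastCases_castSucc]
      · rw [Set.mem_singleton_iff] at h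
        subst h
        refine ⟨Fin.last b, ?_⟩
        funext j
        change aug B v j (Fin.last b) = v j
        rw [aug, Fin.lastCases_last]
  have hrank : B.rank = (aug B β).rank ↔ β ∈ Submodule.span κ (Set.range B.col) := by
    rw [Matrix.rank_eq_finrank_span_cols, Matrix.rank_eq_finrank_span_cols, hspan]
    constructor
    · intro h
      have h1 := Submodule.eq_of_le_of_finrank_eq
        (le_sup_left : Submodule.span κ (Set.range B.col) ≤
          Submodule.span κ (Set.range B.col) ⊔ Submodule.span κ {β}) h
      rw [h1]
      exact Submodule.mem_sup_right (Submodule.mem_span_singleton_self β)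
    · intro h
      have h1 : Submodule.span κ {β} ≤ Submodule.span κ (Set.range B.col) := by
        rw [Submodule.span_singleton_le_iff_mem]
        exact h
      rw [sup_eq_left.mpr h1]
  have hmul : ∀ y : Fin b → κ, B.mulVecLin y = fun j => ∑ k, B j k * y k := fun y => rfl
  split_ifs with h
  · rw [hrank, ← Matrix.range_mulVecLin] at h
    obtain ⟨y₀, hy₀⟩ := h
    have e : {y : Fin b → κ // ∀ j, ∑ k, B j k * y k + β j = 0} ≃ LinearMap.ker B.mulVecLin :=
      { toFun := fun y => ⟨y.1 + y₀, by
          rw [LinearMap.mem_ker, map_add, hy₀, hmul]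
          funext j
          exact y.2 j⟩
        invFun := fun y => ⟨y.1 - y₀, by
          intro j
          have h1 := LinearMap.mem_ker.mp y.2
          have h2 : B.mulVecLin (y.1 - y₀) = -β := by rw [map_sub, h1, hy₀, zero_sub]
          have h3 := congrFun h2 j
          rw [hmul, Pi.neg_apply] at h3
          change ∑ k, B j k * (y.1 - y₀) k = -β j at h3
          rw [h3, neg_add_cancel]⟩
        left_inv := fun y => Subtype.ext (add_sub_cancel_right _ _)
        right_inv := fun y => Subtype.ext (sub_add_cancel _ _) }
    have h1 := B.mulVecLin.finrank_range_add_finrank_ker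
    rw [Module.finrank_fin_fun] at h1
    have h2 : finrank κ (LinearMap.ker B.mulVecLin) = b - B.rank := by
      rw [Matrix.rank]
      omega
    rw [Nat.card_congr e, Module.natCard_eq_pow_finrank (K := κ), h2]
  · have : IsEmpty {y : Fin b → κ // ∀ j, ∑ k, B j k * y k + β j = 0} := by
      constructor
      rintro ⟨y, hy⟩
      apply h
      rw [hrank, ← Matrix.range_mulVecLin]
      refine ⟨-y, ?_⟩
      rw [map_neg, hmul]
      funext j
      rw [Pi.neg_apply]
      exact neg_eq_of_add_eq_zero_right (hy j)
    rw [Nat.card_of_isEmpty (α := {y : Fin b → κ // ∀ j, ∑ k, B j k * y k + β j = 0})]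

end Pool.Agent.KS6_3.B2
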