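import Pool.Agent.KS6_3.B2.Cubic
import Pool.Agent.KS6_3.B2.Rank

/-!
# The number of points of a cubic hypersurface in terms of closed subschemes of the affine space of
the `x`-variables
-/

set_option autoImplicit false

namespace Pool.Agent.KS6_3.B2

open Finset MvPolynomial

variable {N b m : ℕ} (H : Finset (Option (Fin N) × Option (Fin b) × Fin m))

/-- The coefficient of `ŷ_o z_j`. -/
def cf {κ : Type} [CommRing κ] (x : Fin N → κ) (o : Option (Fin b)) (j : Fin m) : κ :=
  ∑ i, if (i, o, j) ∈ H then hat x i else 0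

/-- The matrix of the linear equations for `y`. -/
def Bm {κ : Type} [CommRing κ] (x : Fin N → κ) : Matrix (Fin m) (Fin b) κ :=
  fun j k => cf H x (some k) j

/-- The constant terms of the linear equations for `y`. -/
def bt {κ : Type} [CommRing κ] (x : Fin N → κ) : Fin m → κ := fun j => cf H x none j

lemma val_eq {κ : Type} [CommRing κ] (x : Fin N → κ) (y : Fin b → κ) (j : Fin m) :
    val (univ.filter fun t => (t.1, t.2, j) ∈ H) x y = ∑ k, Bm H x j k * y k + bt H x j := by
  have h1 : ∀ o : Option (Fin b), ∑ i : Option (Fin N),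
      (if (i, o, j) ∈ H then hat x i * hat y o else 0) = cf H x o j * hat y o := by
    intro o
    rw [cf, sum_mul]
    apply sum_congr rfl
    intro i _
    split_ifs
    · rfl
    · rw [zero_mul]
  rw [val, sum_filter, Fintype.sum_prod_type_right]
  simp only [h1]
  rw [Fintype.sum_option, add_comm]
  congr 1
  change bt H x j * 1 = _
  rw [mul_one]

section Poly

variable {κ : Type} [CommRing κ] (x : Fin N → κ)

lemma aeval_cf (o : Option (Fin b)) (j : Fin m) :
    aeval x (cf H (X : Fin N → MvPolynomial (Fin N) ℤ) o j) = cf H x o j := by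
  unfold cf
  rw [map_sum]
  apply sum_congr rfl
  intro i _
  split_ifs
  · cases i with
    | none => exact map_one _
    | some i => exact aeval_X _ _
  · exact map_zero _

/-- The minors of size `r + 1` of the matrix of the linear equations. -/
noncomputable def minB (r : ℕ) : Finset (MvPolynomial (Fin N) ℤ) := by
  classical
  exact univ.image fun fg : (Fin (r + 1) → Fin m) × (Fin (r + 1) → Fin b) =>
    ((Bm H (X : Fin N → MvPolynomial (Fin N) ℤ)).submatrix fg.1 fg.2).det

/-- The minors of size `r + 1` of the augmented matrix of the linear equations. -/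
noncomputable def minA (r : ℕ) : Finset (MvPolynomial (Fin N) ℤ) := by
  classical
  exact univ.image fun fg : (Fin (r + 1) → Fin m) × (Fin (r + 1) → Fin (b + 1)) =>
    ((aug (Bm H (X : Fin N → MvPolynomial (Fin N) ℤ)) (bt H X)).submatrix fg.1 fg.2).det

end Poly

section Field

variable {κ : Type} [Field κ] (x : Fin N → κ)

lemma minB_iff (r : ℕ) : (∀ F ∈ minB H r, aeval x F = 0) ↔ (Bm H x).rank ≤ r := by
  classical
  have h : ∀ (f : Fin (r + 1) → Fin m) (g : Fin (r + 1) → Fin b),
      aeval x ((Bm H (X : Fin N → MvPolynomial (Fin N) ℤ)).submatrix f g).det =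
        ((Bm H x).submatrix f g).det := by
    intro f g
    rw [AlgHom.map_det]
    congr 1
    ext j k
    exact aeval_cf H x _ _
  rw [rank_le_iff]
  simp only [minB, mem_image, mem_univ, true_and, forall_exists_index, Prod.forall]
  constructor
  · intro h1 f g
    rw [← h]
    exact h1 _ f g rfl
  · rintro h1 F f g rfl
    rw [h]
    exact h1 f g

lemma minA_iff (r : ℕ) :
    (∀ F ∈ minA H r, aeval x F = 0) ↔ (aug (Bm H x) (bt H x)).rank ≤ r := by
  classical
  have h0 : ∀ (j : Fin m) (k : Fin (b + 1)),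
      aeval x (aug (Bm H (X : Fin N → MvPolynomial (Fin N) ℤ)) (bt H X) j k) =
        aug (Bm H x) (bt H x) j k := by
    intro j k
    refine Fin.lastCases ?_ (fun k => ?_) k
    · rw [aug, Fin.lastCases_last, aug, Fin.lastCases_last]
      exact aeval_cf H x _ _
    · rw [aug, Fin.lastCases_castSucc, aug, Fin.lastCases_castSucc]
      exact aeval_cf H x _ _
  have h : ∀ (f : Fin (r + 1) → Fin m) (g : Fin (r + 1) → Fin (b + 1)),
      aeval x ((aug (Bm H (X : Fin N → MvPolynomial (Fin N) ℤ)) (bt H X)).submatrix f g).det =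
        ((aug (Bm H x) (bt H x)).submatrix f g).det := by
    intro f g
    rw [AlgHom.map_det]
    congr 1
    ext j k
    exact h0 _ _
  rw [rank_le_iff]
  simp only [minA, mem_image, mem_univ, true_and, forall_exists_index, Prod.forall]
  constructor
  · intro h1 f g
    rw [← h]
    exact h1 _ f g rfl
  · rintro h1 F f g rfl
    rw [h]
    exact h1 f g

variable {H}

/-- The numbers of the solutions by strata. -/
lemma strata_pointwise (q : ℤ) {ρ ρ' b : ℕ} (h1 : ρ ≤ ρ') (hb : ρ ≤ b) :
    (if ρ = ρ' then q ^ (b - ρ) else 0) =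
      ∑ r ∈ range (b + 1), q ^ (b - r) * (if ρ' ≤ r then 1 else 0) -
        ∑ r ∈ range b, q ^ (b - (r + 1)) * (if ρ' ≤ r + 1 ∧ ρ ≤ r then 1 else 0) := by
  have h2 : ∑ r ∈ range b, q ^ (b - (r + 1)) * (if ρ' ≤ r + 1 ∧ ρ ≤ r then (1 : ℤ) else 0) =
      ∑ r ∈ range (b + 1), q ^ (b - r) * (if ρ' ≤ r ∧ ρ < r then (1 : ℤ) else 0) := by
    rw [sum_range_succ']
    rw [if_neg (by omega : ¬ (ρ' ≤ 0 ∧ ρ < 0)), mul_zero, add_zero]
    apply sum_congr rfl
    intro r _
    congr 1
    simp only [Nat.lt_succ_iff]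
  rw [h2, ← sum_sub_distrib]
  split_ifs with h
  · rw [sum_eq_single ρ]
    · rw [if_pos h.ge, if_neg (by omega)]
      ring
    · intro r _ hne
      by_cases h3 : ρ' ≤ r
      · rw [if_pos h3, if_pos (by omega)]
        ring
      · rw [if_neg h3, if_neg (by omega)]
        ring
    · intro h3
      exact absurd (mem_range.mpr (by omega)) h3
  · symm
    apply sum_eq_zero
    intro r _
    by_cases h3 : ρ' ≤ r
    · rw [if_pos h3, if_pos (by omega)]
      ring
    · rw [if_neg h3, if_neg (by omega)]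
      ring

lemma card_eq_sum {α : Type} [Fintype α] (P : α → Prop) [DecidablePred P] :
    ((Nat.card {x // P x} : ℕ) : ℤ) = ∑ x, if P x then 1 else 0 := by
  rw [Nat.card_eq_fintype_card, Fintype.card_subtype, card_filter]
  push_cast
  rfl

/-- **The number of points by strata.** -/
theorem card_strata [Finite κ] (H : Finset (Option (Fin N) × Option (Fin b) × Fin m)) :
    ((Nat.card {v : (Fin N → κ) × (Fin b → κ) //
        ∀ j, val (univ.filter fun t => (t.1, t.2, j) ∈ H) v.1 v.2 = 0} : ℕ) : ℤ) =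
      ∑ r ∈ range (b + 1), (Nat.card κ : ℤ) ^ (b - r) * (Nat.card (affPoints (minA H r) κ) : ℤ) -
        ∑ r ∈ range b, (Nat.card κ : ℤ) ^ (b - (r + 1)) *
          (Nat.card (affPoints (minA H (r + 1) ∪ minB H r) κ) : ℤ) := by
  classical
  have : Fintype κ := Fintype.ofFinite κ
  have e : {v : (Fin N → κ) × (Fin b → κ) //
        ∀ j, val (univ.filter fun t => (t.1, t.2, j) ∈ H) v.1 v.2 = 0} ≃
      Σ x : Fin N → κ, {y : Fin b → κ // ∀ j, ∑ k, Bm H x j k * y k + bt H x j = 0} :=
    { toFun := fun v => ⟨v.1.1, v.1.2, fun j => by rw [← val_eq]; exact v.2 j⟩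
      invFun := fun v => ⟨(v.1, v.2.1), fun j => by rw [val_eq]; exact v.2.2 j⟩
      left_inv := fun _ => rfl
      right_inv := fun _ => rfl }
  have hA : ∀ r, ((Nat.card (affPoints (minA H r) κ) : ℕ) : ℤ) =
      ∑ x : Fin N → κ, if (aug (Bm H x) (bt H x)).rank ≤ r then 1 else 0 := by
    intro r
    rw [← card_eq_sum]
    congr 1
    exact Nat.card_congr (Equiv.subtypeEquiv (Equiv.refl _) fun x => minA_iff H x r)
  have hB : ∀ r, ((Nat.card (affPoints (minA H (r + 1) ∪ minB H r) κ) : ℕ) : ℤ) =
      ∑ x : Fin N → κ, if (aug (Bm H x) (bt H x)).rank ≤ r + 1 ∧ (Bm H x).rank ≤ r then 1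
        else 0 := by
    intro r
    rw [← card_eq_sum]
    congr 1
    refine Nat.card_congr (Equiv.subtypeEquiv (Equiv.refl _) fun x => ?_)
    rw [Equiv.refl_apply, ← minA_iff, ← minB_iff]
    change (∀ F ∈ minA H (r + 1) ∪ minB H r, aeval x F = 0) ↔ _
    simp only [mem_union, or_imp, forall_and]
  rw [Nat.card_congr e, Nat.card_sigma]
  simp only [hA, hB, mul_sum]
  rw [sum_comm (s := range (b + 1)), sum_comm (s := range b), ← sum_sub_distrib]
  push_cast
  apply sum_congr rfl
  intro x _
  rw [card_sol, ← strata_pointwise (Nat.card κ : ℤ) (rank_le_aug _ _)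
    ((Bm H x).rank_le_width)]
  push_cast
  rfl

end Field

end Pool.Agent.KS6_3.B2
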