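import Pool.Agent.KS6_3.B2.LFun

/-!
# Numbers of solutions of systems of binomial equations over finite fields
-/

set_option autoImplicit false

namespace Pool.Agent.KS6_3.B2

open Finset

/-- The functions `(p ^ D χ(p)) ^ k` of `p` and `k`. -/
def cycGen : Set (Nat.Primes → ℕ → ℂ) :=
  {f | ∃ (D E : ℕ) (_ : NeZero E) (χ : DirichletCharacter ℂ E),
    f = fun (p : Nat.Primes) (k : ℕ) => (((p : ℕ) : ℂ) ^ D * χ (p : ℕ)) ^ k}

/-- Their integral linear combinations. -/
def Cyc : AddSubgroup (Nat.Primes → ℕ → ℂ) := AddSubgroup.closure cycGen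

lemma allContinue_of_cyc {f : Nat.Primes → ℕ → ℂ} (hf : f ∈ Cyc) : AllContinue f := by
  refine AddSubgroup.closure_induction ?_ ?_ ?_ ?_ hf
  · rintro x ⟨D, E, _, χ, rfl⟩
    exact allContinue_char D χ
  · exact AllContinue.zero
  · intro x y _ _ hx hy
    exact hx.add hy
  · intro x _ hx
    exact hx.neg

lemma char_mul {E E' : ℕ} [NeZero E] [NeZero E'] (χ : DirichletCharacter ℂ E)
    (χ' : DirichletCharacter ℂ E') : ∃ (E'' : ℕ) (_ : NeZero E'') (χ'' : DirichletCharacter ℂ E''),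
      ∀ n : ℕ, χ'' n = χ n * χ' n := by
  have : NeZero (Nat.lcm E E') := ⟨Nat.lcm_ne_zero (NeZero.ne E) (NeZero.ne E')⟩
  refine ⟨Nat.lcm E E', inferInstance, DirichletCharacter.changeLevel (Nat.dvd_lcm_left E E') χ *
    DirichletCharacter.changeLevel (Nat.dvd_lcm_right E E') χ', fun n => ?_⟩
  by_cases h : Nat.Coprime n (Nat.lcm E E')
  · have hu : IsCoprime (n : ℤ) (Nat.lcm E E' : ℕ) := Nat.isCoprime_iff_coprime.mpr h
    have h1 := DirichletCharacter.changeLevel_eq_cast_of_dvd' χ (Nat.dvd_lcm_left E E') hu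
    have h2 := DirichletCharacter.changeLevel_eq_cast_of_dvd' χ' (Nat.dvd_lcm_right E E') hu
    simp only [Int.cast_natCast] at h1 h2
    rw [MulChar.mul_apply, h1, h2]
  · have hu : ¬ IsUnit (n : ZMod (Nat.lcm E E')) := fun h1 => h ((ZMod.isUnit_iff_coprime _ _).mp h1)
    rw [MulChar.map_nonunit _ hu]
    have h2 : ¬ (Nat.Coprime n E ∧ Nat.Coprime n E') := fun h3 =>
      h (Nat.Coprime.coprime_dvd_right (Nat.lcm_dvd_mul E E') (Nat.Coprime.mul_right h3.1 h3.2))
    by_cases h4 : Nat.Coprime n E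
    · have h5 : ¬ IsUnit (n : ZMod E') := fun h6 =>
        h2 ⟨h4, (ZMod.isUnit_iff_coprime _ _).mp h6⟩
      rw [MulChar.map_nonunit χ' h5, mul_zero]
    · have h5 : ¬ IsUnit (n : ZMod E) := fun h6 => h4 ((ZMod.isUnit_iff_coprime _ _).mp h6)
      rw [MulChar.map_nonunit χ h5, zero_mul]

lemma cyc_mul {f g : Nat.Primes → ℕ → ℂ} (hf : f ∈ Cyc) (hg : g ∈ Cyc) :
    (fun (p : Nat.Primes) (k : ℕ) => f p k * g p k) ∈ Cyc := by
  refine AddSubgroup.closure_induction (p := fun x _ => (fun (p : Nat.Primes) (k : ℕ) => x p k * g p k) ∈ Cyc)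
    ?_ ?_ ?_ ?_ hf
  · rintro x ⟨D, E, _, χ, rfl⟩
    refine AddSubgroup.closure_induction (p := fun y _ =>
      (fun (p : Nat.Primes) (k : ℕ) => (((p : ℕ) : ℂ) ^ D * χ (p : ℕ)) ^ k * y p k) ∈ Cyc) ?_ ?_ ?_ ?_ hg
    · rintro y ⟨D', E', _, χ', rfl⟩
      obtain ⟨E'', hE, χ'', h⟩ := char_mul χ χ'
      refine AddSubgroup.subset_closure ⟨D + D', E'', hE, χ'', ?_⟩
      funext p k
      rw [h, ← mul_pow]
      congr 1
      ring
    · have h : (fun (p : Nat.Primes) (k : ℕ) => (((p : ℕ) : ℂ) ^ D * χ (p : ℕ)) ^ k *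
          (0 : Nat.Primes → ℕ → ℂ) p k) = 0 := by
        funext p k
        exact mul_zero _
      rw [h]
      exact Cyc.zero_mem
    · intro y z _ _ hy hz
      have h := Cyc.add_mem hy hz
      convert h using 1
      funext p k
      exact mul_add _ _ _
    · intro y _ hy
      have h := Cyc.neg_mem hy
      convert h using 1
      funext p k
      exact mul_neg _ _
  · have h : (fun (p : Nat.Primes) (k : ℕ) => (0 : Nat.Primes → ℕ → ℂ) p k * g p k) = 0 := by
      funext p k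
      exact zero_mul _
    rw [h]
    exact Cyc.zero_mem
  · intro y z _ _ hy hz
    have h := Cyc.add_mem hy hz
    convert h using 1
    funext p k
    exact add_mul _ _ _
  · intro y _ hy
    have h := Cyc.neg_mem hy
    convert h using 1
    funext p k
    exact neg_mul _ _

lemma cyc_one : (fun _ _ => 1 : Nat.Primes → ℕ → ℂ) ∈ Cyc := by
  refine AddSubgroup.subset_closure ⟨0, 1, inferInstance, 1, ?_⟩
  funext p k
  have h : (1 : DirichletCharacter ℂ 1) ((p : ℕ) : ZMod 1) = 1 := by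
    rw [MulChar.one_apply]
    exact isUnit_of_subsingleton _
  rw [h, pow_zero, mul_one, one_pow]

lemma cyc_q : (fun (p : Nat.Primes) (k : ℕ) => ((p : ℕ) : ℂ) ^ k : Nat.Primes → ℕ → ℂ) ∈ Cyc := by
  refine AddSubgroup.subset_closure ⟨1, 1, inferInstance, 1, ?_⟩
  funext p k
  have h : (1 : DirichletCharacter ℂ 1) ((p : ℕ) : ZMod 1) = 1 := by
    rw [MulChar.one_apply]
    exact isUnit_of_subsingleton _
  rw [h, pow_one, mul_one]

lemma cyc_prod {ι : Type} (T : Finset ι) {f : ι → Nat.Primes → ℕ → ℂ} (h : ∀ t ∈ T, f t ∈ Cyc) :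
    (fun (p : Nat.Primes) (k : ℕ) => ∏ t ∈ T, f t p k) ∈ Cyc := by
  classical
  induction T using Finset.induction_on with
  | empty => simpa using cyc_one
  | insert t T ht ih =>
    have h1 := cyc_mul (h t (mem_insert_self _ _)) (ih fun u hu => h u (mem_insert_of_mem hu))
    simpa only [prod_insert ht] using h1

lemma cyc_sum {ι : Type} (T : Finset ι) {f : ι → Nat.Primes → ℕ → ℂ} (h : ∀ t ∈ T, f t ∈ Cyc) :
    (fun (p : Nat.Primes) (k : ℕ) => ∑ t ∈ T, f t p k) ∈ Cyc := by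
  have h1 := Cyc.sum_mem h
  convert h1 using 1
  funext p k
  simp

/-- The number `φ(d)` if `p ^ k ≡ 1` modulo `d`, and `0` otherwise. -/
lemma cyc_congr (d : ℕ) (hd : d ≠ 0) :
    (fun (p : Nat.Primes) (k : ℕ) => if (((p : ℕ) ^ k : ℕ) : ZMod d) = 1 then (d.totient : ℂ) else 0 :
      Nat.Primes → ℕ → ℂ) ∈ Cyc := by
  have : NeZero d := ⟨hd⟩
  have h1 : (fun (p : Nat.Primes) (k : ℕ) => if (((p : ℕ) ^ k : ℕ) : ZMod d) = 1 then (d.totient : ℂ) else 0 :
      Nat.Primes → ℕ → ℂ) = fun (p : Nat.Primes) (k : ℕ) => ∑ χ : DirichletCharacter ℂ d, (((p : ℕ) : ℂ) ^ 0 *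
        χ (p : ℕ)) ^ k := by
    funext p k
    have h2 := DirichletCharacter.sum_char_inv_mul_char_eq ℂ (n := d) (a := 1) isUnit_one
      (((p : ℕ) ^ k : ℕ) : ZMod d)
    rw [ZMod.inv_one] at h2
    simp only [MulChar.map_one, one_mul] at h2
    simp only [pow_zero, one_mul]
    rw [← sum_congr rfl fun χ _ => show χ (((p : ℕ) ^ k : ℕ) : ZMod d) = χ (p : ℕ) ^ k by
      rw [Nat.cast_pow, map_pow], h2]
    simp only [eq_comm]
  rw [h1]
  exact cyc_sum _ fun χ _ => AddSubgroup.subset_closure ⟨0, d, inferInstance, χ, rfl⟩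

section Field

variable {κ : Type} [Field κ] [Finite κ]

/-- The number of the elements of order `d`. -/
lemma card_order (d : ℕ) : (Nat.card {z : κˣ // orderOf z = d} : ℂ) =
    if ((Nat.card κ : ℕ) : ZMod d) = 1 then (d.totient : ℂ) else 0 := by
  classical
  have : Fintype κ := Fintype.ofFinite κ
  have hq : 1 ≤ Nat.card κ := Nat.card_pos
  have hiff : ((Nat.card κ : ℕ) : ZMod d) = 1 ↔ d ∣ Fintype.card κˣ := by
    rw [Fintype.card_units, ← Nat.card_eq_fintype_card, ← Nat.cast_one (R := ZMod d),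
      ZMod.natCast_eq_natCast_iff, Nat.ModEq.comm, Nat.modEq_iff_dvd' hq]
  split_ifs with h
  · rw [Nat.card_eq_fintype_card, Fintype.card_subtype,
      IsCyclic.card_orderOf_eq_totient (hiff.mp h)]
  · have : IsEmpty {z : κˣ // orderOf z = d} := by
      constructor
      rintro ⟨z, hz⟩
      apply h
      rw [hiff, ← hz]
      exact orderOf_dvd_card
    rw [Nat.card_of_isEmpty, Nat.cast_zero]

/-- The number of the roots of unity. -/
lemma card_roots (d : ℤ) (hd : d ≠ 0) : (Nat.card {z : κˣ // z ^ d = 1} : ℂ) =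
    ∑ e ∈ d.natAbs.divisors, if ((Nat.card κ : ℕ) : ZMod e) = 1 then (e.totient : ℂ) else 0 := by
  classical
  have : Fintype κ := Fintype.ofFinite κ
  have hd' : d.natAbs ≠ 0 := Int.natAbs_ne_zero.mpr hd
  have e1 : {z : κˣ // z ^ d = 1} ≃ Σ e : d.natAbs.divisors, {z : κˣ // orderOf z = e} :=
    { toFun := fun z => ⟨⟨orderOf z.1, by
        rw [Nat.mem_divisors]
        refine ⟨?_, hd'⟩
        rw [← Int.natCast_dvd]
        exact orderOf_dvd_iff_zpow_eq_one.mpr z.2⟩, ⟨z.1, rfl⟩⟩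
      invFun := fun z => ⟨z.2.1, by
        rw [← orderOf_dvd_iff_zpow_eq_one, z.2.2, Int.natCast_dvd]
        exact (Nat.mem_divisors.mp z.1.2).1⟩
      left_inv := fun z => rfl
      right_inv := by
        rintro ⟨⟨e, he⟩, ⟨z, hz⟩⟩
        simp only at hz
        subst hz
        rfl }
  rw [Nat.card_congr e1, Nat.card_sigma]
  push_cast
  rw [← sum_coe_sort d.natAbs.divisors
    (fun e => if ((Nat.card κ : ℕ) : ZMod e) = 1 then (e.totient : ℂ) else 0)]
  apply sum_congr rfl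
  intro e _
  exact card_order e.1

end Field

end Pool.Agent.KS6_3.B2
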